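import Mathlib
import Pool.Agent.X201.FJ.NFree

/-!
Commuting elements acting on a tree, one of them without fixed vertices.
-/

set_option autoImplicit false

namespace Pool.Agent.X201.FJ

open SimpleGraph

namespace Tr

section seq

variable {V : Type} {T : SimpleGraph V}

/-- the neighbour closer to `u` is unique -/
theorem closer_unique (hT : T.IsTree) (u v w w' : V) (h : T.Adj w v) (h' : T.Adj w' v)
    (hd : T.dist u w + 1 = T.dist u v) (hd' : T.dist u w' + 1 = T.dist u v) : w = w' := by
  obtain ⟨q, hq⟩ := hT.connected.exists_walk_length_eq_dist u w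
  obtain ⟨q', hq'⟩ := hT.connected.exists_walk_length_eq_dist u w'
  have h1 : (q.concat h).IsPath := by
    apply Walk.isPath_of_length_eq_dist
    rw [Walk.length_concat, hq, hd]
  have h2 : (q'.concat h').IsPath := by
    apply Walk.isPath_of_length_eq_dist
    rw [Walk.length_concat, hq', hd']
  have h3 : q.concat h = q'.concat h' := (eq_pth hT _ h1).trans (eq_pth hT _ h2).symm
  have h4 := congrArg Walk.penultimate h3
  rwa [Walk.penultimate_concat, Walk.penultimate_concat] at h4

theorem dist_seq_le (hT : T.IsTree) (L : ℕ → V) (hL : ∀ i, T.Adj (L i) (L (i + 1))) (i k : ℕ) :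
    T.dist (L i) (L (i + k)) ≤ k := by
  induction k with
  | zero => rw [Nat.add_zero, SimpleGraph.dist_self]
  | succ k ih =>
    have h1 := hT.connected.dist_triangle (u := L i) (v := L (i + k)) (w := L (i + (k + 1)))
    have h2 : T.dist (L (i + k)) (L (i + (k + 1))) = 1 := by
      rw [SimpleGraph.dist_eq_one_iff_adj]
      exact hL (i + k)
    omega

/-- sequences without backtracking are geodesics -/
theorem dist_seq (hT : T.IsTree) (L : ℕ → V) (hL : ∀ i, T.Adj (L i) (L (i + 1)))
    (hne : ∀ i, L i ≠ L (i + 2)) (n : ℕ) : T.dist (L 0) (L n) = n := by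
  have key : ∀ n, T.dist (L 0) (L n) = n ∧ T.dist (L 0) (L (n + 1)) = n + 1 := by
    intro n
    induction n with
    | zero =>
      refine ⟨SimpleGraph.dist_self, ?_⟩
      rw [SimpleGraph.dist_eq_one_iff_adj.2 (hL 0)]
    | succ n ih =>
      refine ⟨ih.2, ?_⟩
      rcases hT.dist_eq_dist_add_one_of_adj (L 0) (hL (n + 1)) with h | h
      · exfalso
        refine hne n (closer_unique hT (L 0) (L (n + 1)) _ _ (hL n) (hL (n + 1)).symm ?_ h.symm)
        rw [ih.1, ih.2]
      · rw [h, ih.2]
  exact (key n).1

end seq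

section axis

variable {G V : Type} [Group G] [MulAction G V] {T : SimpleGraph V}

include G in
theorem dist_smul_le (hT : T.IsTree) (hadj : ∀ (g : G) (u v : V), T.Adj u v → T.Adj (g • u) (g • v))
    (g : G) (u v : V) : T.dist (g • u) (g • v) ≤ T.dist u v := by
  obtain ⟨q, hq⟩ := hT.connected.exists_walk_length_eq_dist u v
  rw [← hq, ← mv_length hadj g q]
  exact SimpleGraph.dist_le _

/-- the powers of an element without fixed vertices have no fixed vertices -/
theorem pow_no_fix (hT : T.IsTree) (hadj : ∀ (g : G) (u v : V), T.Adj u v → T.Adj (g • u) (g • v))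
    (hinv : ∀ (g : G) (u : V), T.Adj u (g • u) → g • g • u ≠ u) (g : G) (hg : ∀ u : V, g • u ≠ u)
    (n : ℕ) (hn : 0 < n) (u : V) : g ^ n • u ≠ u := by
  classical
  -- a vertex with minimal displacement
  have hne : Nonempty V := hT.connected.nonempty
  let P : ℕ → Prop := fun k => ∃ x : V, T.dist x (g • x) = k
  have hP : ∃ k, P k := ⟨_, Classical.arbitrary V, rfl⟩
  obtain ⟨x, hx⟩ := Nat.find_spec hP
  have hmin : ∀ y : V, Nat.find hP ≤ T.dist y (g • y) := fun y => Nat.find_min' hP ⟨y, rfl⟩
  set l := Nat.find hP with hl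
  have hl0 : 0 < l := by
    rcases Nat.eq_zero_or_pos l with h | h
    · rw [h] at hx
      exact absurd (hT.connected.dist_eq_zero_iff.1 hx).symm (hg x)
    · exact h
  obtain ⟨p, hp⟩ := hT.connected.exists_walk_length_eq_dist x (g • x)
  rw [hx] at hp
  have hpath : p.IsPath := Walk.isPath_of_length_eq_dist p (by rw [hp, hx])
  have h0 : p.getVert 0 = x := Walk.getVert_zero p
  have hlast : p.getVert l = g • x := by rw [← hp]; exact Walk.getVert_length p
  have hadjp : ∀ i, i < l → T.Adj (p.getVert i) (p.getVert (i + 1)) := fun i hi =>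
    p.adj_getVert_succ (by rw [hp]; exact hi)
  have hinj : ∀ i j, i ≤ l → j ≤ l → p.getVert i = p.getVert j → i = j := fun i j hi hj h =>
    hpath.getVert_injOn (show i ≤ p.length by rw [hp]; exact hi) (show j ≤ p.length by rw [hp]; exact hj) h
  -- distances on the path
  have hdp : ∀ i k, i + k ≤ l → T.dist (p.getVert i) (p.getVert (i + k)) ≤ k := by
    intro i k
    induction k with
    | zero => intro _; rw [Nat.add_zero, SimpleGraph.dist_self]
    | succ k ih =>
      intro h
      have h1 := hT.connected.dist_triangle (u := p.getVert i) (v := p.getVert (i + k))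
        (w := p.getVert (i + (k + 1)))
      have h2 : T.dist (p.getVert (i + k)) (p.getVert (i + (k + 1))) = 1 :=
        SimpleGraph.dist_eq_one_iff_adj.2 (hadjp (i + k) (by omega))
      have h3 := ih (by omega)
      omega
  -- no backtracking at `g • x`
  have hjun : p.getVert (l - 1) ≠ g • p.getVert 1 := by
    intro h
    rcases Nat.lt_or_ge 1 l with h1 | h1
    · have h2 := hdp 1 (l - 2) (by omega)
      have h3 : 1 + (l - 2) = l - 1 := by omega
      rw [h3, h] at h2
      have h4 := hmin (p.getVert 1)
      omega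
    · have h2 : l = 1 := by omega
      rw [h2] at h hlast hadjp
      have h3 := hadjp 0 Nat.one_pos
      rw [Nat.zero_add, h0, hlast] at h3
      rw [hlast] at h
      have h4 : p.getVert (1 - 1) = x := h0
      rw [h4] at h
      exact hinv g x h3 h.symm
  let L : ℕ → V := fun i => g ^ (i / l) • p.getVert (i % l)
  have hLq : ∀ q r, r ≤ l → L (q * l + r) = g ^ q • p.getVert r := by
    intro q r hr
    show g ^ ((q * l + r) / l) • p.getVert ((q * l + r) % l) = _
    rcases Nat.lt_or_ge r l with h | h
    · rw [Nat.mul_comm q l, Nat.mul_add_div hl0, Nat.div_eq_of_lt h, Nat.add_zero, Nat.mul_add_mod,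
        Nat.mod_eq_of_lt h]
    · have h1 : r = l := le_antisymm hr h
      rw [h1, hlast]
      have h2 : q * l + l = (q + 1) * l := by ring
      rw [h2, Nat.mul_div_cancel _ hl0, Nat.mul_mod_left, h0, pow_succ, mul_smul]
  have hL : ∀ i, T.Adj (L i) (L (i + 1)) := by
    intro i
    have h1 := Nat.div_add_mod' i l
    have h2 := Nat.mod_lt i hl0
    rw [← h1, Nat.add_assoc, hLq _ _ h2.le, hLq _ _ h2]
    exact hadj _ _ _ (hadjp _ h2)
  have hLne : ∀ i, L i ≠ L (i + 2) := by
    intro i
    have h1 := Nat.div_add_mod' i l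
    have h2 := Nat.mod_lt i hl0
    rcases Nat.lt_or_ge (i % l + 1) l with h3 | h3
    · rw [← h1, Nat.add_assoc, hLq _ _ h2.le, hLq _ _ (by omega)]
      intro h4
      have h5 := hinj _ _ h2.le (by omega) (MulAction.injective _ h4)
      omega
    · have h4 : i % l = l - 1 := by omega
      have h5 : i / l * l + i % l + 2 = (i / l + 1) * l + 1 := by
        have h6 : (i / l + 1) * l = i / l * l + l := by ring
        omega
      rw [← h1, h5, hLq _ _ h2.le, hLq _ _ (by omega), h4, pow_succ, mul_smul]
      intro h6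
      exact hjun (MulAction.injective _ h6)
  -- a fixed vertex gives a contradiction
  intro hu
  have hu' : ∀ k : ℕ, g ^ (n * k) • u = u := by
    intro k
    induction k with
    | zero => rw [Nat.mul_zero, pow_zero, one_smul]
    | succ k ih => rw [Nat.mul_succ, pow_add, mul_smul, hu, ih]
  let k := 2 * T.dist x u + 1
  have hd1 : T.dist x (g ^ (n * k) • x) = n * k * l := by
    have h1 := dist_seq hT L hL hLne (n * k * l)
    have h2 := hLq (n * k) 0 (Nat.zero_le _)
    have h3 := hLq 0 0 (Nat.zero_le _)
    rw [Nat.add_zero] at h2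
    rw [Nat.zero_mul, Nat.add_zero, pow_zero, one_smul] at h3
    rw [h2, h3, h0] at h1
    exact h1
  have hd2 := hT.connected.dist_triangle (u := x) (v := u) (w := g ^ (n * k) • x)
  have hd3 : T.dist u (g ^ (n * k) • x) ≤ T.dist x u := by
    conv_lhs => rw [← hu' k]
    refine (dist_smul_le hT hadj _ u x).trans ?_
    rw [SimpleGraph.dist_comm]
  have hd4 : k ≤ n * k * l := by
    have h1 : k ≤ n * k := Nat.le_mul_of_pos_left k hn
    exact h1.trans (Nat.le_mul_of_pos_right _ hl0)
  omega

/-- an element fixing two vertices fixes a neighbour of the first -/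
theorem fix_neighbour (hT : T.IsTree) (hadj : ∀ (g : G) (u v : V), T.Adj u v → T.Adj (g • u) (g • v))
    (z : G) (u w : V) (hne : u ≠ w) (hu : z • u = u) (hw : z • w = w) :
    ∃ v, T.Adj u v ∧ z • v = v := by
  let p := pth hT u w
  have hp : p.IsPath := pth_isPath hT u w
  have hinj : Function.Injective (mvh hadj z) := fun a b hab => MulAction.injective z hab
  let q : T.Walk u w := (mv hadj z p).copy hu hw
  have hq : q.IsPath := by
    rw [Walk.isPath_copy]
    exact hp.map hinj
  have hqp : q = p := eq_pth hT q hq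
  have hpn : ¬ p.Nil := fun h => hne h.eq
  have h1 : q.snd = p.snd := by rw [hqp]
  have h2 : q.snd = z • p.snd := by
    have h3 : q.getVert 1 = (mv hadj z p).getVert 1 := by
      show ((mv hadj z p).copy hu hw).getVert 1 = _
      rw [Walk.getVert_copy]
    have h4 : (mv hadj z p).getVert 1 = z • p.getVert 1 := Walk.getVert_map _ _ _
    exact h3.trans h4
  exact ⟨p.snd, p.adj_snd hpn, h2.symm.trans h1⟩

end axis

end Tr

end Pool.Agent.X201.FJ
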