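import Mathlib
import Pool.Agent.X201.RA.Axis

/-!
Commuting elements acting on a tree.
-/

set_option autoImplicit false

namespace Pool.Agent.X201.FJ

open SimpleGraph

/-- `ℤ × ℤ` does not embed in a free group -/
theorem z2_not_free {X : Type} (f : Multiplicative (ℤ × ℤ) →* FreeGroup X)
    (hf : Function.Injective f) : False := by
  have h1 : IsFreeGroup (Multiplicative (ℤ × ℤ)) := isFree_of_inj f hf
  obtain ⟨ι, ⟨b⟩⟩ := IsFreeGroup.nonempty_basis (G := Multiplicative (ℤ × ℤ))
  let e : Multiplicative (ℤ × ℤ) ≃* FreeGroup ι := b.repr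
  have hcomm : ∀ x y : FreeGroup ι, x * y = y * x := by
    intro x y
    have h2 := mul_comm (e.symm x) (e.symm y)
    have h3 := congrArg e h2
    rwa [map_mul, map_mul, e.apply_symm_apply, e.apply_symm_apply] at h3
  have hsub : ∀ i j : ι, i = j := by
    classical
    intro i j
    by_contra hij
    let s : Equiv.Perm (Fin 3) := Equiv.swap 0 1
    let t : Equiv.Perm (Fin 3) := Equiv.swap 1 2
    let F : FreeGroup ι →* Equiv.Perm (Fin 3) := FreeGroup.lift (fun k => if k = i then s else t)
    have h2 := congrArg F (hcomm (FreeGroup.of i) (FreeGroup.of j))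
    have hi : F (FreeGroup.of i) = s := by
      show FreeGroup.lift _ (FreeGroup.of i) = s
      rw [FreeGroup.lift_apply_of, if_pos rfl]
    have hj : F (FreeGroup.of j) = t := by
      show FreeGroup.lift _ (FreeGroup.of j) = t
      rw [FreeGroup.lift_apply_of, if_neg (fun h => hij h.symm)]
    rw [map_mul, map_mul, hi, hj] at h2
    exact absurd h2 (by decide)
  have hcyc : ∃ c : Multiplicative (ℤ × ℤ), ∀ x, x ∈ Subgroup.zpowers c := by
    rcases isEmpty_or_nonempty ι with hι | ⟨⟨i⟩⟩
    · refine ⟨1, fun x => ?_⟩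
      have h2 : e x = 1 := Subsingleton.elim _ _
      have h3 : x = 1 := (MulEquiv.map_eq_one_iff e).1 h2
      rw [h3]; exact one_mem _
    · refine ⟨e.symm (FreeGroup.of i), fun x => ?_⟩
      have h2 : e x ∈ Subgroup.zpowers (FreeGroup.of i) := by
        have h3 : (⊤ : Subgroup (FreeGroup ι)) ≤ Subgroup.zpowers (FreeGroup.of i) := by
          rw [← FreeGroup.closure_range_of, Subgroup.closure_le]
          rintro _ ⟨j, rfl⟩
          rw [hsub j i]
          exact Subgroup.mem_zpowers _
        exact h3 (Subgroup.mem_top _)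
      obtain ⟨n, hn⟩ := Subgroup.mem_zpowers_iff.1 h2
      refine Subgroup.mem_zpowers_iff.2 ⟨n, ?_⟩
      rw [← map_zpow, hn, e.symm_apply_apply]
  obtain ⟨c, hc⟩ := hcyc
  obtain ⟨m, hm⟩ := Subgroup.mem_zpowers_iff.1 (hc (Multiplicative.ofAdd (1, 0)))
  obtain ⟨n, hn⟩ := Subgroup.mem_zpowers_iff.1 (hc (Multiplicative.ofAdd (0, 1)))
  have hm' : m • Multiplicative.toAdd c = ((1, 0) : ℤ × ℤ) := hm
  have hn' : n • Multiplicative.toAdd c = ((0, 1) : ℤ × ℤ) := hn
  have e1 : m * (Multiplicative.toAdd c).1 = 1 := congrArg Prod.fst hm'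
  have e2 : m * (Multiplicative.toAdd c).2 = 0 := congrArg Prod.snd hm'
  have e4 : n * (Multiplicative.toAdd c).2 = 1 := congrArg Prod.snd hn'
  have hm0 : m ≠ 0 := by
    rintro rfl
    rw [zero_mul] at e1
    exact absurd e1 (by norm_num)
  have h5 : (Multiplicative.toAdd c).2 = 0 := (mul_eq_zero.1 e2).resolve_left hm0
  rw [h5, mul_zero] at e4
  exact absurd e4 (by norm_num)

namespace Tr

variable {G V : Type} [Group G] [MulAction G V] {T : SimpleGraph V}

/-- integral powers have no fixed vertices -/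
theorem zpow_no_fix (hT : T.IsTree) (hadj : ∀ (g : G) (u v : V), T.Adj u v → T.Adj (g • u) (g • v))
    (hinv : ∀ (g : G) (u : V), T.Adj u (g • u) → g • g • u ≠ u) (g : G) (hg : ∀ u : V, g • u ≠ u)
    (n : ℤ) (u : V) (hu : g ^ n • u = u) : n = 0 := by
  by_contra hn
  rcases lt_or_gt_of_ne hn with h | h
  · have h1 : g ^ (-n).toNat • u = u := by
      rw [← zpow_natCast, Int.toNat_of_nonneg (by omega), zpow_neg, inv_smul_eq_iff, hu]
    exact pow_no_fix hT hadj hinv g hg _ (by omega) u h1
  · have h1 : g ^ n.toNat • u = u := by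
      rw [← zpow_natCast, Int.toNat_of_nonneg (by omega), hu]
    exact pow_no_fix hT hadj hinv g hg _ (by omega) u h1

/-- **commuting elements**: if `g` has no fixed vertex and `k` commutes with `g` then some `k ^ a * g ^ b`
with `a ≠ 0` fixes an edge -/
theorem comm_fix (hT : T.IsTree) (hadj : ∀ (g : G) (u v : V), T.Adj u v → T.Adj (g • u) (g • v))
    (hinv : ∀ (g : G) (u : V), T.Adj u (g • u) → g • g • u ≠ u) (g k : G) (hgk : Commute k g)
    (hg : ∀ u : V, g • u ≠ u) :
    ∃ (a b : ℤ) (u v : V), a ≠ 0 ∧ T.Adj u v ∧ (k ^ a * g ^ b) • u = u ∧ (k ^ a * g ^ b) • v = v := by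
  by_contra hcon
  -- no fixed vertices
  have hno : ∀ (a b : ℤ) (u : V), (k ^ a * g ^ b) • u = u → a = 0 := by
    intro a b u hu
    by_contra ha
    have hc : Commute (k ^ a * g ^ b) g :=
      (hgk.zpow_left a).mul_left ((Commute.refl g).zpow_left b)
    have h1 : (k ^ a * g ^ b) • g • u = g • u := by
      rw [← mul_smul, hc.eq, mul_smul, hu]
    obtain ⟨v, huv, hv⟩ := fix_neighbour hT hadj (k ^ a * g ^ b) u (g • u) (hg u).symm hu h1
    exact hcon ⟨a, b, u, v, ha, huv, hu, hv⟩
  let F : Multiplicative (ℤ × ℤ) →* G :=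
    { toFun := fun n => k ^ (Multiplicative.toAdd n).1 * g ^ (Multiplicative.toAdd n).2
      map_one' := by
        show k ^ (0 : ℤ) * g ^ (0 : ℤ) = 1
        rw [zpow_zero, zpow_zero, mul_one]
      map_mul' := by
        intro x y
        show k ^ ((Multiplicative.toAdd x).1 + (Multiplicative.toAdd y).1) *
          g ^ ((Multiplicative.toAdd x).2 + (Multiplicative.toAdd y).2) = _
        rw [zpow_add, zpow_add]
        have h1 := (hgk.zpow_zpow (Multiplicative.toAdd y).1 (Multiplicative.toAdd x).2).eq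
        calc k ^ (Multiplicative.toAdd x).1 * k ^ (Multiplicative.toAdd y).1 *
              (g ^ (Multiplicative.toAdd x).2 * g ^ (Multiplicative.toAdd y).2)
            = k ^ (Multiplicative.toAdd x).1 * (k ^ (Multiplicative.toAdd y).1 *
              g ^ (Multiplicative.toAdd x).2) * g ^ (Multiplicative.toAdd y).2 := by group
          _ = _ := by rw [h1]; group }
  letI : MulAction (Multiplicative (ℤ × ℤ)) V := MulAction.compHom V F
  have hsm : ∀ (n : Multiplicative (ℤ × ℤ)) (u : V), n • u = F n • u := fun _ _ => rfl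
  obtain ⟨X, f, hf⟩ := free_of_tree (N := Multiplicative (ℤ × ℤ)) hT
    (fun n u v h => hadj (F n) u v h) (fun n u h => hinv (F n) u h) ⊤ (by
      intro n _ u hu
      have hu' : (k ^ (Multiplicative.toAdd n).1 * g ^ (Multiplicative.toAdd n).2) • u = u := hu
      have h1 := hno _ _ u hu'
      rw [h1, zpow_zero, one_mul] at hu'
      have h2 := zpow_no_fix hT hadj hinv g hg _ u hu'
      have h3 : Multiplicative.toAdd n = (0, 0) := Prod.ext h1 h2
      exact h3)
  exact z2_not_free (f.comp (Subgroup.topEquiv (G := Multiplicative (ℤ × ℤ))).symm.toMonoidHom)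
    (hf.comp (Subgroup.topEquiv (G := Multiplicative (ℤ × ℤ))).symm.injective)

end Tr

end Pool.Agent.X201.FJ
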