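import Mathlib
import Pool.Agent.X201.RA.Comm
import Pool.Agent.X201.FJ.NGP
import Pool.Agent.X201.FJ.AmgTree

/-!
Graph products: amalgams over sets of vertices, the trees of these amalgams.
-/

set_option autoImplicit false

namespace Pool.Agent.X201.FJ

open Pool.Agent.Y110.FJ Pool.Agent.X176.FJ
open SimpleGraph
open scoped Pointwise

section gp

variable {M V : Type} [Group M] {Λ : SimpleGraph V} {B : V → Subgroup M} (h : IsGP Λ B)

/-- the amalgam decomposition for two sets of vertices without edges between the differences -/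
theorem amg_gp {X Y : Set V} (hXY : ∀ v, v ∈ X ∨ v ∈ Y)
    (hno : ∀ x y, x ∉ Y → y ∉ X → ¬ Λ.Adj x y) :
    Amg (er h X).range (er h Y).range (er h (X ∩ Y)).range where
  le_left := range_le (er h) (er_er h) Set.inter_subset_left
  le_right := range_le (er h) (er_er h) Set.inter_subset_right
  gen := by
    rw [eq_top_iff, ← h.gen]
    apply iSup_le
    intro w
    rcases hXY w with hw | hw
    · exact (le_range h hw).trans le_sup_left
    · exact (le_range h hw).trans le_sup_right
  univ := by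
    classical
    intro H _ f g hfg
    let F : M →* H := f.comp (er h X).rangeRestrict
    let F' : M →* H := g.comp (er h Y).rangeRestrict
    have hFF : ∀ w, w ∈ X → w ∈ Y → ∀ x ∈ B w, F x = F' x := by
      intro w hwu hwv x hx
      have hK : x ∈ (er h (X ∩ Y)).range := le_range h (show w ∈ (X ∩ Y : Set V) from ⟨hwu, hwv⟩) hx
      have h1 := hfg x hK
      have e1 : (er h X).rangeRestrict x = ⟨x, range_le (er h) (er_er h) Set.inter_subset_left hK⟩ :=
        Subtype.ext (er_mem h hwu hx)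
      have e2 : (er h Y).rangeRestrict x = ⟨x, range_le (er h) (er_er h) Set.inter_subset_right hK⟩ :=
        Subtype.ext (er_mem h hwv hx)
      show f ((er h X).rangeRestrict x) = g ((er h Y).rangeRestrict x)
      rw [e1, e2]
      exact h1
    obtain ⟨k, hk⟩ := h.univ H (fun w => (if w ∈ X then F else F').comp (B w).subtype) (by
      intro w w' hww x y
      have hc := h.comm w w' hww x x.2 y y.2
      show (if w ∈ X then F else F') (x : M) * (if w' ∈ X then F else F') (y : M) =
        (if w' ∈ X then F else F') (y : M) * (if w ∈ X then F else F') (x : M)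
      by_cases hw : w ∈ X
      · by_cases hw' : w' ∈ X
        · rw [if_pos hw, if_pos hw', ← map_mul, ← map_mul, hc]
        · have hwY : w ∈ Y := by
            by_contra hwY
            exact hno w w' hwY hw' hww
          rw [if_pos hw, if_neg hw', hFF w hw hwY x x.2, ← map_mul, ← map_mul, hc]
      · by_cases hw' : w' ∈ X
        · have hwY : w' ∈ Y := by
            by_contra hwY
            exact hno w' w hwY hw hww.symm
          rw [if_neg hw, if_pos hw', hFF w' hw' hwY y y.2, ← map_mul, ← map_mul, hc]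
        · rw [if_neg hw, if_neg hw', ← map_mul, ← map_mul, hc])
    have hk' : ∀ w, ∀ x ∈ B w, k x = (if w ∈ X then F else F') x := fun w x hx => hk w ⟨x, hx⟩
    refine ⟨k, ?_, ?_⟩
    · have h1 : k.comp (er h X) = F := by
        apply ext_gp h
        intro w x hx
        rw [MonoidHom.comp_apply]
        by_cases hw : w ∈ X
        · rw [er_mem h hw hx, hk' w x hx, if_pos hw]
        · rw [er_not h hw hx, map_one]
          show 1 = f ((er h X).rangeRestrict x)
          have e1 : (er h X).rangeRestrict x = 1 := Subtype.ext (er_not h hw hx)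
          rw [e1, map_one]
      rintro ⟨_, n, rfl⟩
      exact DFunLike.congr_fun h1 n
    · have h1 : k.comp (er h Y) = F' := by
        apply ext_gp h
        intro w x hx
        rw [MonoidHom.comp_apply]
        by_cases hw : w ∈ Y
        · rw [er_mem h hw hx, hk' w x hx]
          by_cases hwX : w ∈ X
          · rw [if_pos hwX, hFF w hwX hw x hx]
          · rw [if_neg hwX]
        · rw [er_not h hw hx, map_one]
          show 1 = g ((er h Y).rangeRestrict x)
          have e1 : (er h Y).rangeRestrict x = 1 := Subtype.ext (er_not h hw hx)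
          rw [e1, map_one]
      rintro ⟨_, n, rfl⟩
      exact DFunLike.congr_fun h1 n

/-- the parabolic subgroups of two joined sets of vertices commute -/
theorem er_comm2 {X Y : Set V} (hXY : ∀ x ∈ X, ∀ y ∈ Y, Λ.Adj x y) (a b : M) :
    er h X a * er h Y b = er h Y b * er h X a := by
  have h1 : ∀ v ∈ X, ∀ x ∈ B v, ∀ b, x * er h Y b = er h Y b * x := by
    intro v hv x hx b
    have h2 : (MulAut.conj x).toMonoidHom.comp (er h Y) = er h Y := by
      apply ext_gp h
      intro w y hy
      show x * er h Y y * x⁻¹ = er h Y y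
      by_cases hw : w ∈ Y
      · rw [er_mem h hw hy, h.comm v w (hXY v hv w hw) x hx y hy, mul_inv_cancel_right]
      · rw [er_not h hw hy, mul_one, mul_inv_cancel]
    have h3 : x * er h Y b * x⁻¹ = er h Y b := DFunLike.congr_fun h2 b
    conv_rhs => rw [← h3]
    group
  have h2 : (MulAut.conj (er h Y b)).toMonoidHom.comp (er h X) = er h X := by
    apply ext_gp h
    intro v y hy
    show er h Y b * er h X y * (er h Y b)⁻¹ = er h X y
    by_cases hv : v ∈ X
    · rw [er_mem h hv hy, ← h1 v hv y hy, mul_inv_cancel_right]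
    · rw [er_not h hv hy, mul_one, mul_inv_cancel]
  have h3 : er h Y b * er h X a * (er h Y b)⁻¹ = er h X a := DFunLike.congr_fun h2 a
  conv_lhs => rw [← h3]
  group

theorem er_split2 {X Y : Set V} (hXY : ∀ x ∈ X, ∀ y ∈ Y, Λ.Adj x y) (x : M) :
    er h (X ∪ Y) x = er h X x * er h Y x := by
  let P : M →* M :=
    { toFun := fun x => er h X x * er h Y x
      map_one' := by rw [map_one, map_one, one_mul]
      map_mul' := fun a b => by
        rw [map_mul, map_mul, mul_assoc, ← mul_assoc (er h X b), er_comm2 h hXY b a]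
        group }
  have h1 : er h (X ∪ Y) = P := by
    apply ext_gp h
    intro v y hy
    show er h (X ∪ Y) y = er h X y * er h Y y
    by_cases hv : v ∈ X
    · have hvY : v ∉ Y := fun hh => (hXY v hv v hh).ne rfl
      rw [er_mem h (show v ∈ X ∪ Y from Or.inl hv) hy, er_mem h hv hy, er_not h hvY hy, mul_one]
    · by_cases hvS : v ∈ Y
      · rw [er_mem h (show v ∈ X ∪ Y from Or.inr hvS) hy, er_not h hv hy, er_mem h hvS hy, one_mul]
      · rw [er_not h (show v ∉ X ∪ Y by
          rintro (h1 | h1)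
          · exact hv h1
          · exact hvS h1) hy, er_not h hv hy, er_not h hvS hy, one_mul]
  exact DFunLike.congr_fun h1 x

end gp

namespace Tr

section amg

variable {G : Type} [Group G] {A B K : Subgroup G}

theorem amg_adj (g : G) (u v : (G ⧸ A) ⊕ (G ⧸ B)) (huv : (amgGraph A B).Adj u v) :
    (amgGraph A B).Adj (g • u) (g • v) := by
  obtain ⟨x, ⟨rfl, rfl⟩ | ⟨rfl, rfl⟩⟩ := huv
  · exact ⟨g * x, Or.inl ⟨rfl, rfl⟩⟩
  · exact ⟨g * x, Or.inr ⟨rfl, rfl⟩⟩

theorem amg_noinv (g : G) (u : (G ⧸ A) ⊕ (G ⧸ B)) : ¬ (amgGraph A B).Adj u (g • u) := by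
  rintro ⟨x, ⟨h1, h2⟩ | ⟨h1, h2⟩⟩
  · rw [h1] at h2
    exact absurd h2 (by
      show ¬ (Sum.inl _ : (G ⧸ A) ⊕ (G ⧸ B)) = Sum.inr _
      simp)
  · rw [h1] at h2
    exact absurd h2 (by
      show ¬ (Sum.inr _ : (G ⧸ A) ⊕ (G ⧸ B)) = Sum.inl _
      simp)

theorem amg_fix_left (z m : G) (hz : z • (Sum.inl (m : G ⧸ A) : (G ⧸ A) ⊕ (G ⧸ B)) = Sum.inl (m : G ⧸ A)) :
    m⁻¹ * z * m ∈ A := by
  have h1 : ((z * m : G) : G ⧸ A) = (m : G ⧸ A) := Sum.inl_injective hz
  have h2 := QuotientGroup.eq.1 h1.symm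
  rwa [← mul_assoc] at h2

theorem amg_fix_right (z m : G) (hz : z • (Sum.inr (m : G ⧸ B) : (G ⧸ A) ⊕ (G ⧸ B)) = Sum.inr (m : G ⧸ B)) :
    m⁻¹ * z * m ∈ B := by
  have h1 : ((z * m : G) : G ⧸ B) = (m : G ⧸ B) := Sum.inr_injective hz
  have h2 := QuotientGroup.eq.1 h1.symm
  rwa [← mul_assoc] at h2

/-- the stabilizers of the vertices -/
theorem amg_fix (z : G) (u : (G ⧸ A) ⊕ (G ⧸ B)) (hz : z • u = u) :
    ∃ m : G, m⁻¹ * z * m ∈ A ∨ m⁻¹ * z * m ∈ B := by
  rcases u with x | x
  · obtain ⟨m, rfl⟩ := QuotientGroup.mk_surjective x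
    exact ⟨m, Or.inl (amg_fix_left z m hz)⟩
  · obtain ⟨m, rfl⟩ := QuotientGroup.mk_surjective x
    exact ⟨m, Or.inr (amg_fix_right z m hz)⟩

/-- the stabilizers of the edges -/
theorem amg_fix_edge (h : Amg A B K) (z : G) (u v : (G ⧸ A) ⊕ (G ⧸ B)) (huv : (amgGraph A B).Adj u v)
    (hu : z • u = u) (hv : z • v = v) : ∃ m : G, m⁻¹ * z * m ∈ K := by
  obtain ⟨x, ⟨rfl, rfl⟩ | ⟨rfl, rfl⟩⟩ := huv
  · exact ⟨x, amg_inf h _ (amg_fix_left z x hu) (amg_fix_right z x hv)⟩
  · exact ⟨x, amg_inf h _ (amg_fix_left z x hv) (amg_fix_right z x hu)⟩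

end amg

end Tr

/-- **commuting elements in an amalgam** -/
theorem amg_comm {G : Type} [Group G] {A B K : Subgroup G} (h : Amg A B K) (g : G)
    (hg : ∀ m : G, m⁻¹ * g * m ∉ A ∧ m⁻¹ * g * m ∉ B) (k : G) (hk : Commute k g) :
    ∃ (a b : ℤ) (m : G), a ≠ 0 ∧ m⁻¹ * (k ^ a * g ^ b) * m ∈ K := by
  obtain ⟨a, b, u, v, ha, huv, hu, hv⟩ := Tr.comm_fix (Tr.amg_tree h) (Tr.amg_adj (A := A) (B := B))
    (fun g u hh => absurd hh (Tr.amg_noinv g u)) g k hk (by
      intro u hu
      obtain ⟨m, hm | hm⟩ := Tr.amg_fix g u hu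
      · exact (hg m).1 hm
      · exact (hg m).2 hm)
  obtain ⟨m, hm⟩ := Tr.amg_fix_edge h _ u v huv hu hv
  exact ⟨a, b, m, ha, hm⟩

end Pool.Agent.X201.FJ
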