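import Mathlib
import Pool.Agent.X201.RA.Gp

/-!
Right-angled Artin groups: generators, abelianization, commuting elements.
-/

set_option autoImplicit false

namespace Pool.Agent.X201.RA

open Pool.Agent.Y110.FJ Pool.Agent.X176.FJ Pool.Agent.X201.FJ
open SimpleGraph

/-- `M` is the right-angled Artin group over `Λ` with the standard generators `b v` -/
structure IsRA {M V : Type} [Group M] (Λ : SimpleGraph V) (b : V → M) : Prop where
  gp : IsGP Λ (fun v => Subgroup.zpowers (b v))
  inf : ∀ (v : V) (n : ℤ), b v ^ n = 1 → n = 0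

section

variable {M V : Type} [Group M] {Λ : SimpleGraph V} {b : V → M} (h : IsRA Λ b)

include h in
theorem IsRA.comm {u v : V} (huv : Λ.Adj u v) : Commute (b u) (b v) :=
  h.gp.comm u v huv _ (Subgroup.mem_zpowers _) _ (Subgroup.mem_zpowers _)

include h in
/-- homomorphisms which agree on the generators -/
theorem IsRA.ext {H : Type} [Group H] {f g : M →* H} (hfg : ∀ v, f (b v) = g (b v)) : f = g := by
  apply ext_gp h.gp
  intro v x hx
  obtain ⟨n, rfl⟩ := Subgroup.mem_zpowers_iff.1 hx
  rw [map_zpow, map_zpow, hfg]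

include h in
/-- the universal property -/
theorem IsRA.lift {H : Type} [Group H] (f : V → H) (hf : ∀ u v, Λ.Adj u v → Commute (f u) (f v)) :
    ∃ F : M →* H, ∀ v, F (b v) = f v := by
  have hinj : ∀ v, Function.Injective (zpowersHom M (b v)) := by
    intro v
    rw [injective_iff_map_eq_one]
    intro n hn
    have h1 : b v ^ (Multiplicative.toAdd n) = 1 := hn
    exact h.inf v _ h1
  have hex : ∀ v, ∃ g : Subgroup.zpowers (b v) →* H, ∀ (n : ℤ) (x : Subgroup.zpowers (b v)),
      (x : M) = b v ^ n → g x = f v ^ n := by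
    intro v
    have hr : ∀ x : Subgroup.zpowers (b v), (x : M) ∈ (zpowersHom M (b v)).range := by
      intro x
      obtain ⟨n, hn⟩ := Subgroup.mem_zpowers_iff.1 x.2
      exact ⟨Multiplicative.ofAdd n, hn⟩
    let e := MonoidHom.ofInjective (hinj v)
    let j : Subgroup.zpowers (b v) →* (zpowersHom M (b v)).range :=
      { toFun := fun x => ⟨x, hr x⟩
        map_one' := rfl
        map_mul' := fun _ _ => rfl }
    refine ⟨(zpowersHom H (f v)).comp (e.symm.toMonoidHom.comp j), fun n x hx => ?_⟩
    have h1 : e.symm (j x) = Multiplicative.ofAdd n := by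
      rw [MulEquiv.symm_apply_eq]
      exact Subtype.ext hx
    show zpowersHom H (f v) (e.symm (j x)) = _
    rw [h1]
    rfl
  choose g hg using hex
  obtain ⟨F, hF⟩ := h.gp.univ H g (by
    intro u v huv x y
    obtain ⟨m, hm⟩ := Subgroup.mem_zpowers_iff.1 x.2
    obtain ⟨n, hn⟩ := Subgroup.mem_zpowers_iff.1 y.2
    rw [hg u m x hm.symm, hg v n y hn.symm]
    exact ((hf u v huv).zpow_zpow m n).eq)
  refine ⟨F, fun v => ?_⟩
  rw [hF v ⟨b v, Subgroup.mem_zpowers _⟩, hg v 1 _ (zpow_one _).symm, zpow_one]

open Classical in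
include h in
theorem exists_chi : ∃ F : M →* Multiplicative (V → ℚ),
    ∀ v, F (b v) = Multiplicative.ofAdd (Pi.single v 1) :=
  h.lift _ fun _ _ _ => Commute.all _ _

/-- the exponents -/
noncomputable def chi (x : M) : V → ℚ := Multiplicative.toAdd ((exists_chi h).choose x)

theorem chi_mul (x y : M) : chi h (x * y) = chi h x + chi h y := by
  unfold chi
  rw [map_mul]; rfl

theorem chi_one : chi h 1 = 0 := by
  unfold chi
  rw [map_one]; rfl

theorem chi_inv (x : M) : chi h x⁻¹ = - chi h x := by
  unfold chi
  rw [map_inv]; rfl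

theorem chi_zpow (x : M) (n : ℤ) : chi h (x ^ n) = n • chi h x := by
  unfold chi
  rw [map_zpow]; rfl

open Classical in
theorem chi_b (v : V) : chi h (b v) = Pi.single v 1 := by
  unfold chi
  rw [(exists_chi h).choose_spec v]; rfl

theorem chi_conj (m x : M) : chi h (m⁻¹ * x * m) = chi h x := by
  rw [chi_mul, chi_mul, chi_inv]; abel

/-- the exponents vanish outside the support of a parabolic subgroup -/
theorem chi_er (S : Set V) (x : M) (v : V) (hv : v ∉ S) : chi h (er h.gp S x) v = 0 := by
  classical
  let F : M →* Multiplicative ℚ :=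
    { toFun := fun x => Multiplicative.ofAdd (chi h (er h.gp S x) v)
      map_one' := by rw [map_one, chi_one]; rfl
      map_mul' := fun x y => by rw [map_mul, chi_mul]; rfl }
  have h1 : F = 1 := by
    apply h.ext
    intro w
    show Multiplicative.ofAdd (chi h (er h.gp S (b w)) v) = 1
    by_cases hw : w ∈ S
    · rw [er_mem h.gp hw (Subgroup.mem_zpowers _), chi_b, Pi.single_eq_of_ne (fun hh : v = w => hv (by rw [hh]; exact hw))]
      rfl
    · rw [er_not h.gp hw (Subgroup.mem_zpowers _), chi_one]; rfl
  exact congrArg Multiplicative.toAdd (DFunLike.congr_fun h1 x)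

end

/-! ### the Heisenberg group -/

/-- the Heisenberg group over the rational numbers -/
@[ext] structure Heis where
  x : ℚ
  y : ℚ
  z : ℚ

namespace Heis

instance : Mul Heis := ⟨fun a b => ⟨a.x + b.x, a.y + b.y, a.z + b.z + a.x * b.y⟩⟩
instance : One Heis := ⟨⟨0, 0, 0⟩⟩
instance : Inv Heis := ⟨fun a => ⟨-a.x, -a.y, -a.z + a.x * a.y⟩⟩

theorem mul_def (a b : Heis) : a * b = ⟨a.x + b.x, a.y + b.y, a.z + b.z + a.x * b.y⟩ := rfl
theorem one_def : (1 : Heis) = ⟨0, 0, 0⟩ := rfl
theorem inv_def (a : Heis) : a⁻¹ = ⟨-a.x, -a.y, -a.z + a.x * a.y⟩ := rfl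

instance : Group Heis :=
  Group.ofLeftAxioms
    (by intro a b c; simp only [mul_def]; ext <;> simp <;> ring)
    (by intro a; simp only [mul_def, one_def]; ext <;> simp)
    (by intro a; simp only [mul_def, one_def, inv_def]; ext <;> simp)

end Heis

section

variable {M V : Type} [Group M] {Λ : SimpleGraph V} {b : V → M} (h : IsRA Λ b)

/-- the exponents of commuting elements at two vertices which are not adjacent -/
theorem chi_comm {g k : M} (hgk : Commute k g) {i j : V} (hij : i ≠ j) (hadj : ¬ Λ.Adj i j) :
    chi h g i * chi h k j = chi h g j * chi h k i := by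
  classical
  obtain ⟨F, hF⟩ := h.lift (H := Heis)
    (fun v => if v = i then ⟨1, 0, 0⟩ else if v = j then ⟨0, 1, 0⟩ else 1) (by
      intro u v huv
      by_cases hu : u = i
      · by_cases hv : v = i
        · exact absurd (hu.trans hv.symm) huv.ne
        · have hv' : v ≠ j := by
            rintro rfl
            exact hadj (hu ▸ huv)
          rw [if_neg hv, if_neg hv']
          exact Commute.one_right _
      · by_cases hu' : u = j
        · have hv : v ≠ i := by
            rintro rfl
            exact hadj (hu' ▸ huv.symm)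
          have hv' : v ≠ j := fun hh => huv.ne (hu'.trans hh.symm)
          rw [if_neg hv, if_neg hv']
          exact Commute.one_right _
        · rw [if_neg hu, if_neg hu']
          exact Commute.one_left _)
  let Fx : Heis →* Multiplicative ℚ :=
    { toFun := fun a => Multiplicative.ofAdd a.x, map_one' := rfl, map_mul' := fun _ _ => rfl }
  let Fy : Heis →* Multiplicative ℚ :=
    { toFun := fun a => Multiplicative.ofAdd a.y, map_one' := rfl, map_mul' := fun _ _ => rfl }
  let E : V → M →* Multiplicative ℚ := fun v =>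
    { toFun := fun x => Multiplicative.ofAdd (chi h x v)
      map_one' := by rw [chi_one]; rfl
      map_mul' := fun x y => by rw [chi_mul]; rfl }
  have hx : Fx.comp F = E i := by
    apply h.ext
    intro v
    show Multiplicative.ofAdd (F (b v)).x = Multiplicative.ofAdd (chi h (b v) i)
    rw [hF, chi_b]
    by_cases hv : v = i
    · rw [if_pos hv, hv, Pi.single_eq_same]
    · rw [if_neg hv, Pi.single_eq_of_ne (fun hh => hv hh.symm)]
      by_cases hv' : v = j
      · rw [if_pos hv']
      · rw [if_neg hv']; rfl
  have hy : Fy.comp F = E j := by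
    apply h.ext
    intro v
    show Multiplicative.ofAdd (F (b v)).y = Multiplicative.ofAdd (chi h (b v) j)
    rw [hF, chi_b]
    by_cases hv : v = i
    · rw [if_pos hv, hv, Pi.single_eq_of_ne hij.symm]
    · rw [if_neg hv]
      by_cases hv' : v = j
      · rw [if_pos hv', hv', Pi.single_eq_same]
      · rw [if_neg hv', Pi.single_eq_of_ne (fun hh => hv' hh.symm)]; rfl
  have hx' : ∀ x, (F x).x = chi h x i := fun x => congrArg Multiplicative.toAdd (DFunLike.congr_fun hx x)
  have hy' : ∀ x, (F x).y = chi h x j := fun x => congrArg Multiplicative.toAdd (DFunLike.congr_fun hy x)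
  have h1 := congrArg F hgk.eq
  rw [map_mul, map_mul, Heis.mul_def, Heis.mul_def] at h1
  have h2 := congrArg Heis.z h1
  simp only [hx', hy'] at h2
  linarith

end

end Pool.Agent.X201.RA
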