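import Mathlib
import Pool.Agent.X201.RA.Hom

/-!
Right-angled Artin groups: the exponents of the centralizer of an element.
-/

set_option autoImplicit false

namespace Pool.Agent.X201.RA

open Pool.Agent.Y110.FJ Pool.Agent.X176.FJ Pool.Agent.X201.FJ
open SimpleGraph

section cls

variable {V : Type} (Λ : SimpleGraph V)

/-- the vertices with the same link or the same star as `w` -/
def cls (w : V) : Set V := {u | lk Λ u = lk Λ w ∨ st Λ u = st Λ w}

variable {Λ}

theorem mem_lk {u w : V} : u ∈ lk Λ w ↔ Λ.Adj w u := Iff.rfl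

theorem mem_st {u w : V} : u ∈ st Λ w ↔ u = w ∨ Λ.Adj w u := Iff.rfl

theorem self_mem_cls (w : V) : w ∈ cls Λ w := Or.inl rfl

theorem cls_symm {u w : V} (h : u ∈ cls Λ w) : w ∈ cls Λ u := h.imp Eq.symm Eq.symm

/-- equal links and equal stars do not mix -/
theorem cls_mix {u w t : V} (h : lk Λ u = lk Λ w) (h' : st Λ w = st Λ t) (hwt : w ≠ t) : u = w := by
  have h1 : t ∈ lk Λ w := by
    have h2 : t ∈ st Λ w := by rw [h']; exact Set.mem_insert _ _
    exact h2.resolve_left hwt.symm
  have h2 : t ∈ lk Λ u := by rw [h]; exact h1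
  have h3 : u ∈ st Λ w := by rw [h']; exact Or.inr (mem_lk.1 h2).symm
  rcases h3 with h3 | h3
  · exact h3
  · have h4 : u ∈ lk Λ u := by rw [h]; exact h3
    exact absurd rfl (mem_lk.1 h4).ne

theorem cls_trans {u w t : V} (h : u ∈ cls Λ w) (h' : w ∈ cls Λ t) : u ∈ cls Λ t := by
  by_cases hwt : w = t
  · rwa [← hwt]
  by_cases huw : u = w
  · rwa [huw]
  rcases h with h | h
  · rcases h' with h' | h'
    · exact Or.inl (h.trans h')
    · exact absurd (cls_mix h h' hwt) huw
  · rcases h' with h' | h'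
    · exact absurd (cls_mix h'.symm h.symm (Ne.symm huw)).symm hwt
    · exact Or.inr (h.trans h')

theorem cls_eq {u w : V} (h : u ∈ cls Λ w) : cls Λ u = cls Λ w := by
  ext t
  exact ⟨fun ht => cls_trans ht h, fun ht => cls_trans ht (cls_symm h)⟩

theorem st_ncard [Finite V] (w : V) : (st Λ w).ncard = (lk Λ w).ncard + 1 :=
  Set.ncard_insert_of_notMem (fun h => (mem_lk.1 h).ne rfl) (Set.toFinite _)

theorem cls_ncard [Finite V] {u w : V} (h : u ∈ cls Λ w) : (st Λ u).ncard = (st Λ w).ncard := by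
  rcases h with h | h
  · rw [st_ncard, st_ncard, h]
  · rw [h]

/-- domination for vertices of maximal valence -/
theorem mem_cls_of_sub [Finite V] {s t : V} (h : lk Λ s ⊆ st Λ t)
    (hc : (st Λ t).ncard ≤ (st Λ s).ncard) : t ∈ cls Λ s := by
  by_cases hst : s = t
  · rw [hst]; exact self_mem_cls t
  by_cases had : Λ.Adj s t
  · have h1 : st Λ s ⊆ st Λ t := by
      rintro x (rfl | hx)
      · exact Or.inr had.symm
      · exact h hx
    exact Or.inr (Set.eq_of_subset_of_ncard_le h1 hc).symm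
  · have h1 : lk Λ s ⊆ lk Λ t := by
      intro x hx
      rcases h hx with h2 | h2
      · exact absurd (h2 ▸ hx) had
      · exact h2
    refine Or.inl (Set.eq_of_subset_of_ncard_le h1 ?_).symm
    rw [st_ncard, st_ncard] at hc
    omega

end cls

section

variable {M V : Type} [Group M] {Λ : SimpleGraph V} {b : V → M} (h : IsRA Λ b)

/-- the span of the exponents of the centralizer -/
noncomputable def DD (g : M) : Submodule ℚ (V → ℚ) :=
  Submodule.span ℚ {x | ∃ k : M, Commute k g ∧ x = chi h k}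

theorem chi_mem_DD {g k : M} (hk : Commute k g) : chi h k ∈ DD h g :=
  Submodule.subset_span ⟨k, hk, rfl⟩

theorem DD_rel {g : M} {x : V → ℚ} (hx : x ∈ DD h g) {i j : V} (hij : i ≠ j) (hadj : ¬ Λ.Adj i j) :
    chi h g i * x j = chi h g j * x i := by
  unfold DD at hx
  induction hx using Submodule.span_induction with
  | mem x hx =>
    obtain ⟨k, hk, rfl⟩ := hx
    exact chi_comm h hk hij hadj
  | zero => simp
  | add x y _ _ hx hy =>
    rw [Pi.add_apply, Pi.add_apply, mul_add, mul_add, hx, hy]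
  | smul a x _ hx =>
    rw [Pi.smul_apply, Pi.smul_apply, smul_eq_mul, smul_eq_mul]
    linear_combination a * hx

/-- the restriction to the star of a vertex -/
noncomputable def rs (g : M) (s : V) : DD h g →ₗ[ℚ] (st Λ s → ℚ) :=
  (LinearMap.funLeft ℚ ℚ (fun j : st Λ s => (j : V))).comp (DD h g).subtype

theorem rs_apply (g : M) (s : V) (x : DD h g) (j : st Λ s) : rs h g s x j = (x : V → ℚ) j := rfl

theorem rs_inj {g : M} {s : V} (hs : chi h g s ≠ 0) : Function.Injective (rs h g s) := by
  rw [injective_iff_map_eq_zero]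
  intro x hx
  apply Subtype.ext
  funext j
  have h0 : ∀ j ∈ st Λ s, (x : V → ℚ) j = 0 := fun j hj => congrFun hx ⟨j, hj⟩
  by_cases hj : j ∈ st Λ s
  · exact h0 j hj
  · have h1 := DD_rel h x.2 (i := s) (j := j) (fun hh => hj (Or.inl hh.symm)) (fun hh => hj (Or.inr hh))
    rw [h0 s (Set.mem_insert _ _), mul_zero] at h1
    exact (mul_eq_zero.1 h1).resolve_left hs

variable [Finite V]

/-- an element whose centralizer has maximal rank -/
theorem DD_max {g : M} {m : ℕ} (hm : ∀ u, (st Λ u).ncard ≤ m) (hg : m ≤ Module.finrank ℚ (DD h g))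
    {s : V} (hs : chi h g s ≠ 0) : (st Λ s).ncard = m ∧ Function.Surjective (rs h g s) := by
  classical
  have : Fintype V := Fintype.ofFinite V
  have h1 := LinearMap.finrank_le_finrank_of_injective (rs_inj h hs)
  rw [Module.finrank_fintype_fun_eq_card, ← Nat.card_eq_fintype_card, Nat.card_coe_set_eq] at h1
  have h2 := hm s
  refine ⟨by omega, ?_⟩
  refine (LinearMap.injective_iff_surjective_of_finrank_eq_finrank ?_).1 (rs_inj h hs)
  rw [Module.finrank_fintype_fun_eq_card, ← Nat.card_eq_fintype_card, Nat.card_coe_set_eq]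
  omega

open Classical in
theorem single_mem {g : M} {m : ℕ} (hm : ∀ u, (st Λ u).ncard ≤ m)
    (hg : m ≤ Module.finrank ℚ (DD h g)) {s : V} (hs : chi h g s ≠ 0) {j : V} (hj : j ∈ lk Λ s) :
    (Pi.single j 1 : V → ℚ) ∈ DD h g := by
  obtain ⟨x, hx⟩ := (DD_max h hm hg hs).2 (fun i : st Λ s => (Pi.single j 1 : V → ℚ) i)
  have h0 : ∀ i ∈ st Λ s, (x : V → ℚ) i = (Pi.single j 1 : V → ℚ) i := fun i hi => congrFun hx ⟨i, hi⟩
  have hjs : s ≠ j := (mem_lk.1 hj).ne
  have h1 : (x : V → ℚ) = Pi.single j 1 := by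
    funext i
    by_cases hi : i ∈ st Λ s
    · exact h0 i hi
    · have h1 := DD_rel h x.2 (i := s) (j := i) (fun hh => hi (Or.inl hh.symm)) (fun hh => hi (Or.inr hh))
      rw [h0 s (Set.mem_insert _ _), Pi.single_eq_of_ne hjs, mul_zero] at h1
      have h2 : i ≠ j := by rintro rfl; exact hi (Or.inr hj)
      rw [Pi.single_eq_of_ne h2]
      exact (mul_eq_zero.1 h1).resolve_left hs
  rw [← h1]
  exact x.2

/-- the support of the exponents -/
theorem supp_cls {g : M} {m : ℕ} (hm : ∀ u, (st Λ u).ncard ≤ m)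
    (hg : m ≤ Module.finrank ℚ (DD h g)) {s t : V} (hs : chi h g s ≠ 0) (ht : chi h g t ≠ 0) :
    t ∈ cls Λ s := by
  classical
  refine mem_cls_of_sub (fun j hj => ?_) ?_
  · by_contra hjt
    have h1 := single_mem h hm hg hs hj
    have htj : t ≠ j := fun hh => hjt (Or.inl hh.symm)
    have h2 := DD_rel h h1 (i := t) (j := j) htj (fun hh => hjt (Or.inr hh))
    rw [Pi.single_eq_same, Pi.single_eq_of_ne htj, mul_one, mul_zero] at h2
    exact ht h2
  · rw [(DD_max h hm hg hs).1, (DD_max h hm hg ht).1]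

/-- lower bound for the rank -/
theorem rank_ge {x : M} {v : V} (hx : ∀ j ∈ lk Λ v, Commute (b j) x) (hv : chi h x v ≠ 0) :
    (st Λ v).ncard ≤ Module.finrank ℚ (DD h x) := by
  classical
  have : Fintype V := Fintype.ofFinite V
  have h1 : Function.Surjective (rs h x v) := by
    intro y
    let c : ℚ := y ⟨v, Set.mem_insert _ _⟩ / chi h x v
    let y' : V → ℚ := fun j => if hj : j ∈ st Λ v then y ⟨j, hj⟩ else 0
    let w : V → ℚ := c • chi h x + ∑ j ∈ (lk Λ v).toFinset, (y' j - c * chi h x j) • (Pi.single j 1 : V → ℚ)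
    have hw : w ∈ DD h x := by
      refine Submodule.add_mem _ (Submodule.smul_mem _ _ (chi_mem_DD h (Commute.refl x))) ?_
      refine Submodule.sum_mem _ fun j hj => Submodule.smul_mem _ _ ?_
      have h2 := chi_mem_DD h (hx j (Set.mem_toFinset.1 hj))
      rwa [chi_b] at h2
    refine ⟨⟨w, hw⟩, ?_⟩
    funext j
    rw [rs_apply]
    show c * chi h x j + (∑ i ∈ (lk Λ v).toFinset, (y' i - c * chi h x i) • (Pi.single i 1 : V → ℚ)) j = y j
    rw [Finset.sum_apply]
    rcases j with ⟨j, hj⟩
    rcases hj with rfl | hj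
    · rw [Finset.sum_eq_zero (by
        intro i hi
        have h3 : j ≠ i := (mem_lk.1 (Set.mem_toFinset.1 hi)).ne
        rw [Pi.smul_apply, Pi.single_eq_of_ne h3, smul_zero])]
      rw [add_zero]
      exact div_mul_cancel₀ _ hv
    · rw [Finset.sum_eq_single j (by
        intro i _ hij
        rw [Pi.smul_apply, Pi.single_eq_of_ne (Ne.symm hij), smul_zero]) (by
        intro hh
        exact absurd (Set.mem_toFinset.2 hj) hh)]
      rw [Pi.smul_apply, Pi.single_eq_same, smul_eq_mul, mul_one]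
      have h4 : y' j = y ⟨j, Or.inr hj⟩ := dif_pos (show j ∈ st Λ v from Or.inr hj)
      rw [h4]
      ring
  have h2 := LinearMap.finrank_le_finrank_of_surjective (f := rs h x v) h1
  rwa [Module.finrank_fintype_fun_eq_card, ← Nat.card_eq_fintype_card, Nat.card_coe_set_eq] at h2

end

end Pool.Agent.X201.RA
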