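import Mathlib
import Pool.Agent.X201.RA.Lin

/-!
Right-angled Artin groups: elements with centralizers of maximal rank.
-/

set_option autoImplicit false

namespace Pool.Agent.X201.RA

open Pool.Agent.Y110.FJ Pool.Agent.X176.FJ Pool.Agent.X201.FJ
open SimpleGraph

section

variable {M V : Type} [Group M] {Λ : SimpleGraph V} {b : V → M} (h : IsRA Λ b)

/-- intersections of conjugates of parabolic subgroups -/
theorem conj_inter (g : M) (U : Set V) (hU : U.Finite)
    (hg : ∀ u ∈ U, ∃ m : M, m⁻¹ * g * m ∈ (er h.gp {u}ᶜ).range) :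
    ∃ m : M, m⁻¹ * g * m ∈ (er h.gp Uᶜ).range := by
  induction U, hU using Set.Finite.induction_on with
  | empty =>
    refine ⟨1, ?_⟩
    have h1 : er h.gp (∅ : Set V)ᶜ = MonoidHom.id M := by
      apply h.ext
      intro v
      rw [er_mem h.gp (show v ∈ (∅ : Set V)ᶜ from fun hh => hh) (Subgroup.mem_zpowers _)]
      rfl
    rw [h1]
    exact ⟨_, rfl⟩
  | @insert u U _ _ ih =>
    obtain ⟨m, hm⟩ := ih fun u hu => hg u (Set.mem_insert_of_mem _ hu)
    obtain ⟨m', hm'⟩ := hg u (Set.mem_insert _ _)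
    let z := m⁻¹ * m'
    let y := m⁻¹ * g * m
    have hy : er h.gp Uᶜ y = y := er_fix h.gp hm
    let y' := m'⁻¹ * g * m'
    have hy' : er h.gp {u}ᶜ y' = y' := er_fix h.gp hm'
    have hyz : y = z * y' * z⁻¹ := by
      show m⁻¹ * g * m = m⁻¹ * m' * (m'⁻¹ * g * m') * (m⁻¹ * m')⁻¹
      group
    refine ⟨m * er h.gp Uᶜ z, er h.gp Uᶜ y', ?_⟩
    have h1 : er h.gp (insert u U)ᶜ (er h.gp Uᶜ y') = er h.gp Uᶜ y' := by
      have h2 : (insert u U)ᶜ = Uᶜ ∩ {u}ᶜ := by
        ext x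
        simp only [Set.mem_compl_iff, Set.mem_insert_iff, not_or, Set.mem_inter_iff,
          Set.mem_singleton_iff]
        exact and_comm
      rw [er_er, h2, Set.inter_assoc, Set.inter_comm {u}ᶜ, ← Set.inter_assoc, Set.inter_self,
        ← er_er, hy']
    rw [h1]
    have h3 : m⁻¹ * g * m = y := rfl
    have h4 : (m * er h.gp Uᶜ z)⁻¹ * g * (m * er h.gp Uᶜ z) =
        (er h.gp Uᶜ z)⁻¹ * (m⁻¹ * g * m) * er h.gp Uᶜ z := by group
    have h5 : y = er h.gp Uᶜ z * er h.gp Uᶜ y' * (er h.gp Uᶜ z)⁻¹ := by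
      rw [← map_inv, ← map_mul, ← map_mul, ← hyz, hy]
    rw [h4, h3, h5]
    group

variable [Finite V]

/-- ellipticity -/
theorem ell {g : M} {m : ℕ} (hm : ∀ u, (st Λ u).ncard ≤ m) (hg : m ≤ Module.finrank ℚ (DD h g))
    {s : V} (hs : chi h g s ≠ 0) (u : V) (hu : u ∉ cls Λ s) :
    ∃ x : M, x⁻¹ * g * x ∈ (er h.gp {u}ᶜ).range := by
  classical
  by_contra hcon
  have hcon' : ∀ x : M, x⁻¹ * g * x ∉ (er h.gp {u}ᶜ).range := fun x hx => hcon ⟨x, hx⟩
  have hu0 : chi h g u = 0 := by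
    by_contra h1
    exact hu (supp_cls h hm hg hs h1)
  have hus : u ≠ s := by
    rintro rfl
    exact hs hu0
  have hXY : ({u}ᶜ : Set V) ∩ st Λ u = lk Λ u := by
    ext x
    constructor
    · rintro ⟨h1, h2 | h2⟩
      · exact absurd h2 h1
      · exact h2
    · intro h1
      exact ⟨fun h2 => (mem_lk.1 h1).ne (Set.mem_singleton_iff.1 h2).symm, Or.inr h1⟩
  have hA : Amg (er h.gp {u}ᶜ).range (er h.gp (st Λ u)).range (er h.gp ({u}ᶜ ∩ st Λ u)).range := by
    apply amg_gp h.gp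
    · intro v
      by_cases hv : v = u
      · exact Or.inr (Or.inl hv)
      · exact Or.inl hv
    · intro x y hx hy hxy
      have hy' : y = u := by
        by_contra hne
        exact hy hne
      rw [hy'] at hxy
      exact hx (Or.inr hxy.symm)
  have hB : ∀ x : M, x⁻¹ * g * x ∉ (er h.gp (st Λ u)).range := by
    intro x hx
    apply hcon' x
    set y := x⁻¹ * g * x with hy
    have h1 : er h.gp (st Λ u) y = y := er_fix h.gp hx
    have h2 : er h.gp (st Λ u) y = er h.gp {u} y * er h.gp (lk Λ u) y :=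
      er_split h.gp (fun hh => (mem_lk.1 hh).ne rfl) (fun v hv => hv) y
    obtain ⟨n, hn⟩ := Subgroup.mem_zpowers_iff.1 (er_single h.gp u y)
    have h3 : chi h y u = 0 := by rw [hy, chi_conj]; exact hu0
    have h4 : chi h y u = n := by
      rw [← h1, h2, chi_mul, Pi.add_apply, chi_er h (lk Λ u) y u (fun hh => (mem_lk.1 hh).ne rfl),
        add_zero, ← hn, chi_zpow, Pi.smul_apply, chi_b, Pi.single_eq_same]
      simp
    have h5 : n = 0 := by
      rw [h3] at h4
      exact_mod_cast h4.symm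
    rw [h5, zpow_zero] at hn
    rw [← hn, one_mul] at h2
    have h6 : y = er h.gp (lk Λ u) y := h1.symm.trans h2
    have h7 : er h.gp {u}ᶜ y = y := by
      rw [h6, ← hXY, er_er, ← Set.inter_assoc, Set.inter_self]
    exact ⟨y, h7⟩
  -- the exponents of commuting elements
  have hk : ∀ k : M, Commute k g → ∃ t : ℚ, ∀ j, j ∉ lk Λ u → chi h k j = t * chi h g j := by
    intro k hk
    obtain ⟨a, c, x, ha, hx⟩ := amg_comm hA g (fun m => ⟨hcon' m, hB m⟩) k hk
    refine ⟨-c / a, fun j hj => ?_⟩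
    obtain ⟨y, hy⟩ := hx
    have h1 : chi h (x⁻¹ * (k ^ a * g ^ c) * x) j = 0 := by
      rw [← hy]
      exact chi_er h _ y j (by rw [hXY]; exact hj)
    rw [chi_conj, chi_mul, chi_zpow, chi_zpow, Pi.add_apply, Pi.smul_apply, Pi.smul_apply,
      zsmul_eq_mul, zsmul_eq_mul] at h1
    have ha' : (a : ℚ) ≠ 0 := by exact_mod_cast ha
    field_simp
    linarith
  have hD : ∀ x ∈ DD h g, ∃ t : ℚ, ∀ j, j ∉ lk Λ u → x j = t * chi h g j := by
    intro x hx
    unfold DD at hx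
    induction hx using Submodule.span_induction with
    | mem x hx =>
      obtain ⟨k, hk', rfl⟩ := hx
      exact hk k hk'
    | zero => exact ⟨0, fun j _ => by simp⟩
    | add x y _ _ hx hy =>
      obtain ⟨t, ht⟩ := hx
      obtain ⟨t', ht'⟩ := hy
      exact ⟨t + t', fun j hj => by rw [Pi.add_apply, ht j hj, ht' j hj]; ring⟩
    | smul c x _ hx =>
      obtain ⟨t, ht⟩ := hx
      exact ⟨c * t, fun j hj => by rw [Pi.smul_apply, ht j hj, smul_eq_mul]; ring⟩
  by_cases hus' : u ∈ lk Λ s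
  · obtain ⟨t, ht⟩ := hD _ (single_mem h hm hg hs hus')
    have h1 := ht u (fun hh => (mem_lk.1 hh).ne rfl)
    rw [Pi.single_eq_same, hu0, mul_zero] at h1
    exact one_ne_zero h1
  · have hex : ∃ j, j ∈ lk Λ s ∧ j ∉ lk Λ u := by
      by_contra hno
      apply hu
      refine mem_cls_of_sub (fun j hj => ?_) ?_
      · by_contra hj'
        exact hno ⟨j, hj, fun hh => hj' (Or.inr hh)⟩
      · rw [(DD_max h hm hg hs).1]
        exact hm u
    obtain ⟨j, hj, hj'⟩ := hex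
    obtain ⟨t, ht⟩ := hD _ (single_mem h hm hg hs hj)
    have h1 := ht s (fun hh => hus' (mem_lk.2 (mem_lk.1 hh).symm))
    have h2 := ht j hj'
    rw [Pi.single_eq_of_ne (mem_lk.1 hj).ne] at h1
    have h3 : t = 0 := (mul_eq_zero.1 h1.symm).resolve_right hs
    rw [Pi.single_eq_same, h3, zero_mul] at h2
    exact one_ne_zero h2

/-- **elements with centralizers of maximal rank** -/
theorem max_ker {g : M} {m : ℕ} (hm : ∀ u, (st Λ u).ncard ≤ m) (hg : m ≤ Module.finrank ℚ (DD h g))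
    {s : V} (hs : chi h g s ≠ 0) : er h.gp (cls Λ s)ᶜ g = 1 := by
  obtain ⟨x, hx⟩ := conj_inter h g (cls Λ s)ᶜ (Set.toFinite _) fun u hu => ell h hm hg hs u hu
  rw [compl_compl] at hx
  have h1 := er_fix h.gp hx
  have h2 : er h.gp (cls Λ s)ᶜ (x⁻¹ * g * x) = 1 := by
    rw [← h1, er_er, Set.compl_inter_self, er_empty]
  rw [map_mul, map_mul, map_inv] at h2
  have h3 : er h.gp (cls Λ s)ᶜ g = er h.gp (cls Λ s)ᶜ x *
      ((er h.gp (cls Λ s)ᶜ x)⁻¹ * er h.gp (cls Λ s)ᶜ g * er h.gp (cls Λ s)ᶜ x) *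
      (er h.gp (cls Λ s)ᶜ x)⁻¹ := by group
  rw [h3, h2, mul_one, mul_inv_cancel]

end

end Pool.Agent.X201.RA
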