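import Mathlib
import Pool.Agent.X201.RA.Ell

/-!
Automorphisms of right-angled Artin groups and the classes of vertices of maximal valence.
-/

set_option autoImplicit false

namespace Pool.Agent.X201.RA

open Pool.Agent.Y110.FJ Pool.Agent.X176.FJ Pool.Agent.X201.FJ
open SimpleGraph

section

variable {M V : Type} [Group M] {Λ : SimpleGraph V} {b : V → M} (h : IsRA Λ b) [Finite V]

theorem exists_lin (φ : M ≃* M) : ∃ Φ : (V → ℚ) →ₗ[ℚ] (V → ℚ), ∀ x, Φ (chi h x) = chi h (φ x) := by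
  classical
  have : Fintype V := Fintype.ofFinite V
  let Φ : (V → ℚ) →ₗ[ℚ] (V → ℚ) := (Pi.basisFun ℚ V).constr ℚ (fun v => chi h (φ (b v)))
  refine ⟨Φ, fun x => ?_⟩
  let F : M →* Multiplicative (V → ℚ) :=
    { toFun := fun x => Multiplicative.ofAdd (Φ (chi h x))
      map_one' := by rw [chi_one, map_zero]; rfl
      map_mul' := fun x y => by rw [chi_mul, map_add]; rfl }
  let F' : M →* Multiplicative (V → ℚ) :=
    { toFun := fun x => Multiplicative.ofAdd (chi h (φ x))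
      map_one' := by rw [map_one, chi_one]; rfl
      map_mul' := fun x y => by rw [map_mul, chi_mul]; rfl }
  have h1 : F = F' := by
    apply h.ext
    intro v
    show Multiplicative.ofAdd (Φ (chi h (b v))) = Multiplicative.ofAdd (chi h (φ (b v)))
    have h2 := (Pi.basisFun ℚ V).constr_basis ℚ (fun v => chi h (φ (b v))) v
    rw [Pi.basisFun_apply] at h2
    rw [chi_b]
    exact congrArg Multiplicative.ofAdd h2
  exact congrArg Multiplicative.toAdd (DFunLike.congr_fun h1 x)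

theorem exists_lin_inj (φ : M ≃* M) : ∃ Φ : (V → ℚ) →ₗ[ℚ] (V → ℚ), Function.Injective Φ ∧
    ∀ x, Φ (chi h x) = chi h (φ x) := by
  classical
  have : Fintype V := Fintype.ofFinite V
  obtain ⟨Φ, hΦ⟩ := exists_lin h φ
  obtain ⟨Ψ, hΨ⟩ := exists_lin h φ.symm
  refine ⟨Φ, ?_, hΦ⟩
  have h1 : Ψ.comp Φ = LinearMap.id := by
    apply (Pi.basisFun ℚ V).ext
    intro v
    rw [Pi.basisFun_apply, ← chi_b h v]
    show Ψ (Φ (chi h (b v))) = chi h (b v)
    rw [hΦ, hΨ, φ.symm_apply_apply]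
  intro x y hxy
  have h2 : Ψ (Φ x) = Ψ (Φ y) := by rw [hxy]
  have h3 : ∀ x, Ψ (Φ x) = x := fun x => DFunLike.congr_fun h1 x
  rwa [h3, h3] at h2

theorem finrank_aut (φ : M ≃* M) (x : M) :
    Module.finrank ℚ (DD h x) ≤ Module.finrank ℚ (DD h (φ x)) := by
  obtain ⟨Φ, hinj, hΦ⟩ := exists_lin_inj h φ
  have hmem : ∀ y ∈ DD h x, Φ y ∈ DD h (φ x) := by
    intro y hy
    unfold DD at hy
    induction hy using Submodule.span_induction with
    | mem y hy =>
      obtain ⟨k, hk, rfl⟩ := hy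
      rw [hΦ]
      exact chi_mem_DD h (hk.map φ)
    | zero => rw [map_zero]; exact zero_mem _
    | add y z _ _ hy hz => rw [map_add]; exact add_mem hy hz
    | smul c y _ hy => rw [map_smul]; exact Submodule.smul_mem _ c hy
  refine LinearMap.finrank_le_finrank_of_injective (f := Φ.restrict hmem) ?_
  intro a c hac
  exact Subtype.ext (hinj (congrArg Subtype.val hac))

theorem aut_ne (φ : M ≃* M) {x : M} (hx : chi h x ≠ 0) : ∃ w, chi h (φ x) w ≠ 0 := by
  obtain ⟨Φ, hinj, hΦ⟩ := exists_lin_inj h φ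
  by_contra hcon
  apply hx
  apply hinj
  rw [hΦ, map_zero]
  funext w
  by_contra hw
  exact hcon ⟨w, hw⟩

/-- images of the generators in a class of maximal valence -/
theorem aut_cls {m : ℕ} (hm : ∀ u, (st Λ u).ncard ≤ m) (φ : M ≃* M) {v : V} (hv : (st Λ v).ncard = m) :
    ∃ w, (st Λ w).ncard = m ∧ ∀ v' ∈ cls Λ v, er h.gp (cls Λ w)ᶜ (φ (b v')) = 1 := by
  classical
  have hR : ∀ (x : M) (v' : V), (st Λ v').ncard = m → (∀ j ∈ lk Λ v', Commute (b j) x) →
      chi h x v' ≠ 0 → m ≤ Module.finrank ℚ (DD h (φ x)) ∧ ∃ w, chi h (φ x) w ≠ 0 := by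
    intro x v' hv' hx hx'
    refine ⟨?_, aut_ne h φ (fun hh => hx' (by rw [hh]; rfl))⟩
    calc m = (st Λ v').ncard := hv'.symm
      _ ≤ _ := rank_ge h hx hx'
      _ ≤ _ := finrank_aut h φ x
  have hb : ∀ v', (st Λ v').ncard = m →
      m ≤ Module.finrank ℚ (DD h (φ (b v'))) ∧ ∃ w, chi h (φ (b v')) w ≠ 0 := fun v' hv' =>
    hR (b v') v' hv' (fun j hj => h.comm (mem_lk.1 hj).symm) (by
      rw [chi_b, Pi.single_eq_same]; exact one_ne_zero)
  obtain ⟨hw1, w, hw2⟩ := hb v hv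
  refine ⟨w, (DD_max h hm hw1 hw2).1, fun v' hv' => ?_⟩
  obtain ⟨hw1', w', hw2'⟩ := hb v' ((cls_ncard hv').trans hv)
  have hkey : w' ∈ cls Λ w := by
    by_contra hcon
    have hvv : v ≠ v' := by
      rintro rfl
      exact hcon (supp_cls h hm hw1 hw2 hw2')
    have e1 : chi h (φ (b v')) w = 0 := by
      by_contra h1
      exact hcon (cls_symm (supp_cls h hm hw1' hw2' h1))
    have e2 : chi h (φ (b v)) w' = 0 := by
      by_contra h1
      exact hcon (supp_cls h hm hw1 hw2 h1)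
    obtain ⟨hx1, -⟩ := hR (b v * b v') v hv (by
      intro j hj
      refine (h.comm (mem_lk.1 hj).symm).mul_right ?_
      rcases hv' with h1 | h1
      · rw [← h1] at hj
        exact h.comm (mem_lk.1 hj).symm
      · have h2 : j ∈ st Λ v' := by rw [h1]; exact Or.inr hj
        rcases h2 with rfl | h2
        · exact Commute.refl _
        · exact h.comm (mem_lk.1 h2).symm) (by
      rw [chi_mul, Pi.add_apply, chi_b, chi_b, Pi.single_eq_same, Pi.single_eq_of_ne hvv, add_zero]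
      exact one_ne_zero)
    apply hcon
    refine supp_cls h hm hx1 ?_ ?_
    · rw [map_mul, chi_mul, Pi.add_apply, e1, add_zero]
      exact hw2
    · rw [map_mul, chi_mul, Pi.add_apply, e2, zero_add]
      exact hw2'
  have h1 := max_ker h hm hw1' hw2'
  rwa [cls_eq hkey] at h1

/-- the normal subgroup of a class -/
noncomputable abbrev KK (v : V) : Subgroup M := (er h.gp (cls Λ v)ᶜ).ker

omit [Finite V] in
theorem mem_KK (v w : V) : b w ∈ KK h v ↔ w ∈ cls Λ v := by
  constructor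
  · intro hw
    by_contra hc
    have h1 : er h.gp (cls Λ v)ᶜ (b w) = b w := er_mem h.gp hc (Subgroup.mem_zpowers _)
    have h2 : b w = 1 := h1.symm.trans hw
    have h3 := h.inf w 1 (by rw [zpow_one]; exact h2)
    exact one_ne_zero h3
  · intro hw
    exact er_not h.gp (show w ∉ (cls Λ v)ᶜ from fun hh => hh hw) (Subgroup.mem_zpowers _)

theorem aut_le {m : ℕ} (hm : ∀ u, (st Λ u).ncard ≤ m) (φ : M ≃* M) {v : V} (hv : (st Λ v).ncard = m) :
    ∃ w, (st Λ w).ncard = m ∧ ∀ x ∈ KK h v, φ x ∈ KK h w := by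
  obtain ⟨w, hw, hw'⟩ := aut_cls h hm φ hv
  refine ⟨w, hw, ?_⟩
  have h1 : KK h v ≤ (KK h w).comap φ.toMonoidHom := by
    refine ker_le h.gp _ fun v' hv' => ?_
    have h2 : v' ∈ cls Λ v := by
      by_contra hc
      exact hv' hc
    rw [Subgroup.zpowers_le]
    exact hw' v' h2
  exact fun x hx => h1 hx

/-- **automorphisms permute the normal subgroups of the classes of maximal valence** -/
theorem aut_ker {m : ℕ} (hm : ∀ u, (st Λ u).ncard ≤ m) (φ : M ≃* M) {v : V} (hv : (st Λ v).ncard = m) :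
    ∃ w, ∀ x, x ∈ KK h v ↔ φ x ∈ KK h w := by
  obtain ⟨w, hw, h1⟩ := aut_le h hm φ hv
  obtain ⟨v', _, h2⟩ := aut_le h hm φ.symm hw
  refine ⟨w, fun x => ⟨h1 x, fun hx => ?_⟩⟩
  have h3 : b v ∈ KK h v' := by
    have h4 := h2 _ (h1 _ ((mem_KK h v v).2 (self_mem_cls v)))
    rwa [φ.symm_apply_apply] at h4
  have h5 := cls_eq ((mem_KK h v' v).1 h3)
  have h6 := h2 _ hx
  rw [φ.symm_apply_apply] at h6
  show er h.gp (cls Λ v)ᶜ x = 1
  rw [h5]
  exact h6

end

end Pool.Agent.X201.RA
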