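import Mathlib
import Pool.Agent.X201.RA.Aut

/-!
The commutator subgroup of the normal subgroup of a class of vertices is free.
-/

set_option autoImplicit false

namespace Pool.Agent.X201.RA

open Pool.Agent.Y110.FJ Pool.Agent.X176.FJ Pool.Agent.X201.FJ
open SimpleGraph
open scoped commutatorElement

section

variable {M V : Type} [Group M] {Λ : SimpleGraph V} {b : V → M} (h : IsRA Λ b)

/-- parabolic subgroups of cliques are abelian -/
theorem er_abel {O : Set V} (hO : ∀ x ∈ O, ∀ y ∈ O, x ≠ y → Λ.Adj x y) (a c : M) :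
    er h.gp O a * er h.gp O c = er h.gp O c * er h.gp O a := by
  have h1 : ∀ v ∈ O, ∀ c, b v * er h.gp O c = er h.gp O c * b v := by
    intro v hv c
    have h2 : (MulAut.conj (b v)).toMonoidHom.comp (er h.gp O) = er h.gp O := by
      apply h.ext
      intro w
      show b v * er h.gp O (b w) * (b v)⁻¹ = er h.gp O (b w)
      by_cases hw : w ∈ O
      · rw [er_mem h.gp hw (Subgroup.mem_zpowers _)]
        by_cases hvw : v = w
        · rw [hvw, mul_inv_cancel_right]
        · rw [(h.comm (hO v hv w hw hvw)).eq, mul_inv_cancel_right]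
      · rw [er_not h.gp hw (Subgroup.mem_zpowers _), mul_one, mul_inv_cancel]
    have h3 : b v * er h.gp O c * (b v)⁻¹ = er h.gp O c := DFunLike.congr_fun h2 c
    conv_rhs => rw [← h3]
    group
  have h2 : (MulAut.conj (er h.gp O c)).toMonoidHom.comp (er h.gp O) = er h.gp O := by
    apply h.ext
    intro w
    show er h.gp O c * er h.gp O (b w) * (er h.gp O c)⁻¹ = er h.gp O (b w)
    by_cases hw : w ∈ O
    · rw [er_mem h.gp hw (Subgroup.mem_zpowers _), ← h1 w hw, mul_inv_cancel_right]
    · rw [er_not h.gp hw (Subgroup.mem_zpowers _), mul_one, mul_inv_cancel]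
  have h3 : er h.gp O c * er h.gp O a * (er h.gp O c)⁻¹ = er h.gp O a := DFunLike.congr_fun h2 a
  conv_lhs => rw [← h3]
  group

/-- retractions to cliques kill commutators -/
theorem er_comm_one {O : Set V} (hO : ∀ x ∈ O, ∀ y ∈ O, x ≠ y → Λ.Adj x y) (K : Subgroup M) {y : M}
    (hy : y ∈ ⁅K, K⁆) : er h.gp O y = 1 := by
  have h1 : ⁅K, K⁆ ≤ (er h.gp O).ker := by
    rw [Subgroup.commutator_le]
    intro a _ c _
    show er h.gp O ⁅a, c⁆ = 1
    rw [map_commutatorElement, commutatorElement_eq_one_iff_mul_comm]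
    exact er_abel h hO a c
  exact h1 hy

/-- two kinds of classes -/
theorem cls_cases (v : V) :
    (∀ u w, u ∈ cls Λ v → w ∈ cls Λ v → ¬ Λ.Adj u w) ∨
    ((∀ u ∈ cls Λ v, st Λ u = st Λ v) ∧ ∀ u ∈ cls Λ v, ∀ w ∈ cls Λ v, u ≠ w → Λ.Adj u w) := by
  by_cases hB : ∃ u ∈ cls Λ v, u ≠ v ∧ st Λ u = st Λ v
  · right
    obtain ⟨u, _, huv, hst⟩ := hB
    have h1 : ∀ w ∈ cls Λ v, st Λ w = st Λ v := by
      intro w hw
      rcases hw with hw | hw
      · rw [cls_mix hw hst.symm huv.symm]
      · exact hw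
    refine ⟨h1, fun x hx y hy hxy => ?_⟩
    have h2 : y ∈ st Λ x := by
      rw [h1 x hx, ← h1 y hy]
      exact Set.mem_insert _ _
    exact h2.resolve_left (Ne.symm hxy)
  · left
    have h1 : ∀ w ∈ cls Λ v, lk Λ w = lk Λ v := by
      intro w hw
      rcases hw with hw' | hw'
      · exact hw'
      · by_cases hwv : w = v
        · rw [hwv]
        · exact absurd ⟨w, Or.inr hw', hwv, hw'⟩ hB
    intro u w hu hw huw
    have h2 : w ∈ lk Λ u := huw
    rw [h1 u hu, ← h1 w hw] at h2
    exact (mem_lk.1 h2).ne rfl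

/-- **the commutator subgroup is free** -/
theorem comm_free (v : V) : IsFreeGroup (⁅KK h v, KK h v⁆ : Subgroup M) := by
  set K : Subgroup M := KK h v with hK
  have hKn : K.Normal := by rw [hK]; infer_instance
  have hDK : ⁅K, K⁆ ≤ K := Subgroup.commutator_le_left K K
  have hDn : (⁅K, K⁆ : Subgroup M).Normal := inferInstance
  rcases cls_cases (Λ := Λ) v with hA | ⟨hB1, hB2⟩
  · -- pairwise nonadjacent
    have hO : ∀ u w, u ∉ (cls Λ v)ᶜ → w ∉ (cls Λ v)ᶜ → ¬ Λ.Adj u w := fun u w hu hw =>
      hA u w (Set.notMem_compl_iff.1 hu) (Set.notMem_compl_iff.1 hw)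
    obtain ⟨X, f, hf⟩ := Tr.free_of_tree (N := M) (TT_tree h.gp hO) (TT_adj h.gp)
      (fun g u hh => absurd hh (TT_inv h.gp g u)) ⁅K, K⁆ (by
        intro n hn u hu
        have hn1 : er h.gp (cls Λ v)ᶜ n = 1 := hDK hn
        rcases u with x | ⟨w, x⟩
        · exact fix_left h.gp hn1 x hu
        · obtain ⟨m, rfl⟩ := QuotientGroup.mk_surjective x
          have h1 := (fix_right h.gp hO hn1 w m).1 hu
          have h2 : m⁻¹ * n * m ∈ ⁅K, K⁆ := by
            have h3 := hDn.conj_mem n hn m⁻¹
            rwa [inv_inv] at h3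
          have h3 := er_mem h.gp (Set.mem_singleton w.1) h1
          rw [er_comm_one h (O := {w.1}) (fun x hx y hy hxy => absurd
            ((Set.mem_singleton_iff.1 hx).trans (Set.mem_singleton_iff.1 hy).symm) hxy) K h2] at h3
          have h4 : n = m * (m⁻¹ * n * m) * m⁻¹ := by group
          rw [h4, ← h3, mul_one, mul_inv_cancel])
    exact isFree_of_inj f hf
  · -- pairwise adjacent
    let L : Set V := st Λ v \ cls Λ v
    have hcs : cls Λ v ⊆ st Λ v := by
      intro u hu
      rw [← hB1 u hu]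
      exact Set.mem_insert _ _
    have hY : st Λ v = cls Λ v ∪ L := (Set.union_sdiff_cancel hcs).symm
    have hj : ∀ x ∈ cls Λ v, ∀ y ∈ L, Λ.Adj x y := by
      intro x hx y hy
      have h1 : y ∈ st Λ x := by rw [hB1 x hx]; exact hy.1
      exact h1.resolve_left (fun hh => hy.2 (hh ▸ hx))
    have hAm : Amg (er h.gp (cls Λ v)ᶜ).range (er h.gp (st Λ v)).range
        (er h.gp ((cls Λ v)ᶜ ∩ st Λ v)).range := by
      apply amg_gp h.gp
      · intro x
        by_cases hx : x ∈ cls Λ v
        · exact Or.inr (hcs hx)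
        · exact Or.inl hx
      · intro x y hx hy hxy
        have hy' : y ∈ cls Λ v := Set.notMem_compl_iff.1 hy
        apply hx
        rw [← hB1 y hy']
        exact Or.inr hxy.symm
    obtain ⟨X, f, hf⟩ := Tr.free_of_tree (N := M) (Tr.amg_tree hAm)
      (Tr.amg_adj (A := (er h.gp (cls Λ v)ᶜ).range) (B := (er h.gp (st Λ v)).range))
      (fun g u hh => absurd hh (Tr.amg_noinv g u)) ⁅K, K⁆ (by
        intro n hn u hu
        obtain ⟨m, hm⟩ := Tr.amg_fix n u hu
        set y := m⁻¹ * n * m with hy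
        have h2 : y ∈ ⁅K, K⁆ := by
          have h3 := hDn.conj_mem n hn m⁻¹
          rwa [inv_inv] at h3
        have h3 : er h.gp (cls Λ v)ᶜ y = 1 := hDK h2
        have h4 : y = 1 := by
          rcases hm with hm | hm
          · rw [← er_fix h.gp hm, h3]
          · have h5 := er_fix h.gp hm
            rw [hY, er_split2 h.gp hj] at h5
            have h6 : er h.gp L y = 1 := by
              have h7 : L ⊆ (cls Λ v)ᶜ := fun x hx => hx.2
              rw [← er_er_sub h.gp h7, h3, map_one]
            rw [h6, mul_one, er_comm_one h hB2 K h2] at h5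
            exact h5.symm
        have h5 : n = m * y * m⁻¹ := by rw [hy]; group
        rw [h5, h4, mul_one, mul_inv_cancel])
    exact isFree_of_inj f hf

end

end Pool.Agent.X201.RA
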