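import Mathlib
import Pool.Agent.X201.RA.Free
import Pool.Agent.X201.FJ.TG

/-!
Extensions of right-angled Artin groups.
-/

set_option autoImplicit false

namespace Pool.Agent.X201.RA

open Pool.Agent.Y110.FJ Pool.Agent.X176.FJ Pool.Agent.X201.FJ
open SimpleGraph
open scoped commutatorElement

/-- The class `C` is closed under subgroups (isomorphic embeddings), overgroups of finite index, and
extensions with free or with abelian kernel. -/
structure KerClosed (C : ∀ (G : Type) [Group G], Prop) : Prop where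
  sub : ∀ (A B : Type) [Group A] [Group B] (f : A →* B), Function.Injective f → C B → C A
  fin : ∀ (H : Type) [Group H] (K : Subgroup H), K.FiniteIndex → C K → C H
  free : ∀ (H : Type) [Group H] (K : Subgroup H) [K.Normal], IsFreeGroup K → C (H ⧸ K) → C H
  abel : ∀ (H : Type) [Group H] (K : Subgroup H) [K.Normal], (∀ a ∈ K, ∀ c ∈ K, a * c = c * a) →
    C (H ⧸ K) → C H

variable {C : ∀ (G : Type) [Group G], Prop}

/-- the parabolic subgroups -/
theorem sub_ra {M V : Type} [Group M] {Λ : SimpleGraph V} {b : V → M} (h : IsRA Λ b) (S : Set V) :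
    IsRA (Λ.induce S) (fun u : S => (⟨b u, le_range h.gp u.2 (Subgroup.mem_zpowers _)⟩ :
      (er h.gp S).range)) where
  gp := by
    have h1 := sub_gp h.gp S
    have h2 : (fun v : S => (Subgroup.zpowers (b v)).subgroupOf (er h.gp S).range) =
        fun u : S => Subgroup.zpowers (⟨b u, le_range h.gp u.2 (Subgroup.mem_zpowers _)⟩ :
          (er h.gp S).range) := by
      funext u
      ext x
      rw [Subgroup.mem_subgroupOf, Subgroup.mem_zpowers_iff, Subgroup.mem_zpowers_iff]
      constructor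
      · rintro ⟨n, hn⟩
        exact ⟨n, Subtype.ext hn⟩
      · rintro ⟨n, hn⟩
        exact ⟨n, congrArg Subtype.val hn⟩
    rwa [h2] at h1
  inf v n hn := h.inf v n (congrArg Subtype.val hn)

/-- **extensions of right-angled Artin groups** -/
theorem ra_main (hC : KerClosed C) (n : ℕ) : ∀ (G Q M V : Type) [Group G] [Group Q] [Group M]
    [Finite V] (Λ : SimpleGraph V) (b : V → M), IsRA Λ b → ∀ (ι : M →* G), Function.Injective ι →
    ∀ (π : G →* Q), ι.range = π.ker → Nat.card V = n → C Q → C G := by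
  induction n using Nat.strong_induction_on with
  | _ n ih =>
  intro G Q M V _ _ _ _ Λ b h ι hι π hex hn hQ
  classical
  rcases isEmpty_or_nonempty V with hV | hV
  · have h1 : MonoidHom.id M = 1 := h.ext (fun v => (hV.false v).elim)
    refine hC.sub _ _ π ?_ hQ
    rw [← MonoidHom.ker_eq_bot_iff, ← hex, eq_bot_iff]
    rintro _ ⟨x, rfl⟩
    rw [Subgroup.mem_bot]
    have h2 : x = 1 := DFunLike.congr_fun h1 x
    rw [h2, map_one]
  obtain ⟨v, hv⟩ := Finite.exists_max (fun u => (st Λ u).ncard)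
  -- conjugation by the elements of `G`
  have hrn : ∀ (g y : G), y ∈ ι.range → g * y * g⁻¹ ∈ ι.range := by
    intro g y hy
    rw [hex] at hy ⊢
    exact (inferInstance : (π.ker).Normal).conj_mem y hy g
  have hNn : ι.range.Normal := ⟨fun y hy g => hrn g y hy⟩
  let e : M ≃* ι.range := MonoidHom.ofInjective hι
  have he : ∀ x, ((e x : ι.range) : G) = ι x := fun x => rfl
  have he' : ∀ y : ι.range, ι (e.symm y) = y := fun y => by rw [← he, e.apply_symm_apply]
  let φ : G → (M ≃* M) := fun g => (e.trans (MulAut.conjNormal g)).trans e.symm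
  have hφ : ∀ g x, ι (φ g x) = g * ι x * g⁻¹ := by
    intro g x
    show ι (e.symm (MulAut.conjNormal g (e x))) = _
    rw [he', MulAut.conjNormal_apply, he]
  -- the normal subgroup
  let KG : Subgroup G := (KK h v).map ι
  have hperm : ∀ g : G, ∃ w : V, ∀ y : G, y ∈ KG ↔ g * y * g⁻¹ ∈ (KK h w).map ι := by
    intro g
    obtain ⟨w, hw⟩ := aut_ker h hv (φ g) (v := v) rfl
    refine ⟨w, fun y => ⟨?_, ?_⟩⟩
    · rintro ⟨x, hx, rfl⟩
      exact ⟨φ g x, (hw x).1 hx, hφ g x⟩
    · rintro ⟨z, hz, hzy⟩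
      have h1 : y ∈ ι.range := by
        have h2 := hrn g⁻¹ (g * y * g⁻¹) ⟨z, hzy⟩
        have h3 : g⁻¹ * (g * y * g⁻¹) * g⁻¹⁻¹ = y := by group
        rwa [h3] at h2
      obtain ⟨x, rfl⟩ := h1
      rw [← hφ] at hzy
      have h2 := hι hzy
      exact ⟨x, (hw x).2 (h2 ▸ hz), rfl⟩
  choose f hf using hperm
  let G' : Subgroup G := Subgroup.normalizer (KG : Set G)
  have hG'mem : ∀ g : G, g ∈ G' ↔ ∀ y, y ∈ KG ↔ g * y * g⁻¹ ∈ KG := fun g =>
    Subgroup.mem_normalizer_iff
  have hfG : ∀ g g' : G, f g = f g' → g⁻¹ * g' ∈ G' := by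
    intro g g' hgg
    rw [hG'mem]
    intro y
    rw [hf g' y, ← hgg, hf g (g⁻¹ * g' * y * (g⁻¹ * g')⁻¹)]
    have h1 : g * (g⁻¹ * g' * y * (g⁻¹ * g')⁻¹) * g⁻¹ = g' * y * g'⁻¹ := by group
    rw [h1]
  have hfinq : Finite (G ⧸ G') := by
    refine Finite.of_injective (fun q : G ⧸ G' => f q.out) ?_
    intro q q' hqq
    have h1 := hfG _ _ hqq
    have h2 := QuotientGroup.eq.2 h1
    rwa [QuotientGroup.out_eq', QuotientGroup.out_eq'] at h2
  have hfi : G'.FiniteIndex := Subgroup.finiteIndex_of_finite_quotient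
  refine hC.fin G G' hfi ?_
  -- the image of `M` is in `G'`
  have hιG : ∀ x, ι x ∈ G' := by
    intro x
    rw [hG'mem]
    intro y
    constructor
    · rintro ⟨k, hk, rfl⟩
      exact ⟨x * k * x⁻¹, (inferInstance : (KK h v).Normal).conj_mem k hk x, by
        rw [map_mul, map_mul, map_inv]⟩
    · rintro ⟨k, hk, hky⟩
      refine ⟨x⁻¹ * k * x, ?_, ?_⟩
      · have h1 := (inferInstance : (KK h v).Normal).conj_mem k hk x⁻¹
        rwa [inv_inv] at h1
      · rw [map_mul, map_mul, map_inv, hky]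
        group
  let ι' : M →* G' := ι.codRestrict G' hιG
  have hι' : ∀ x, ((ι' x : G') : G) = ι x := fun x => rfl
  let KG' : Subgroup G' := KG.subgroupOf G'
  have hKn : KG'.Normal := by
    refine ⟨fun y hy g => ?_⟩
    rw [Subgroup.mem_subgroupOf] at hy ⊢
    exact ((hG'mem g).1 g.2 y).1 hy
  have hKK : ∀ x, ι' x ∈ KG' ↔ x ∈ KK h v := by
    intro x
    rw [Subgroup.mem_subgroupOf, hι']
    constructor
    · rintro ⟨y, hy, hyx⟩
      rwa [← hι hyx]
    · intro hx
      exact ⟨x, hx, rfl⟩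
  -- the quotient
  have hquot : C (G' ⧸ KG') := by
    let S : Set V := (cls Λ v)ᶜ
    let R : Subgroup M := (er h.gp S).range
    let ι'' : R →* G' ⧸ KG' := (QuotientGroup.mk' KG').comp (ι'.comp R.subtype)
    let π'' : G' ⧸ KG' →* Q := QuotientGroup.lift KG' (π.comp G'.subtype) (by
      intro y hy
      have h1 : (y : G) ∈ KG := hy
      obtain ⟨x, _, hx⟩ := h1
      have h2 : (y : G) ∈ π.ker := by rw [← hex]; exact ⟨x, hx⟩
      exact h2)
    have hcard : Nat.card S < n := by
      rw [← hn, Nat.card_coe_set_eq]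
      have h1 : S.ncard < (Set.univ : Set V).ncard := by
        apply Set.ncard_lt_ncard _ (Set.toFinite _)
        refine ⟨Set.subset_univ _, fun hh => ?_⟩
        exact hh (Set.mem_univ v) (self_mem_cls v)
      rwa [Set.ncard_univ] at h1
    refine ih _ hcard (G' ⧸ KG') Q R S (Λ.induce S) _ (sub_ra h S) ι'' ?_ π'' ?_ rfl hQ
    · rw [injective_iff_map_eq_one]
      intro x hx
      have h1 : ι' (x : M) ∈ KG' := (QuotientGroup.eq_one_iff _).1 hx
      have h2 : er h.gp S (x : M) = 1 := (hKK _).1 h1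
      have h3 := er_fix h.gp x.2
      exact Subtype.ext (h3.symm.trans h2)
    · ext q
      obtain ⟨g, rfl⟩ := QuotientGroup.mk_surjective q
      constructor
      · rintro ⟨x, hx⟩
        rw [← hx]
        show π (ι (x : M)) = 1
        have h1 : ι (x : M) ∈ π.ker := by rw [← hex]; exact ⟨_, rfl⟩
        exact h1
      · intro hq
        have h1 : (g : G) ∈ π.ker := hq
        rw [← hex] at h1
        obtain ⟨x, hx⟩ := h1
        refine ⟨⟨er h.gp S x, x, rfl⟩, ?_⟩
        show ((ι' (er h.gp S x) : G') : G' ⧸ KG') = (g : G' ⧸ KG')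
        rw [QuotientGroup.eq]
        have h2 : g = ι' x := Subtype.ext hx.symm
        rw [h2, ← map_inv, ← map_mul, hKK]
        show er h.gp S ((er h.gp S x)⁻¹ * x) = 1
        rw [map_mul, map_inv, er_er, Set.inter_self, inv_mul_cancel]
  -- the commutator subgroup
  let D : Subgroup M := ⁅KK h v, KK h v⁆
  let DG' : Subgroup G' := D.map ι'
  have hmap : DG' ≤ KG' := by
    rintro _ ⟨x, hx, rfl⟩
    exact (hKK x).2 (Subgroup.commutator_le_left _ _ hx)
  have hDn : DG'.Normal := by
    refine ⟨?_⟩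
    rintro _ ⟨x, hx, rfl⟩ g
    have h1 : ∀ k ∈ KK h v, φ g k ∈ KK h v := by
      intro k hk
      have h2 : ι k ∈ KG := ⟨k, hk, rfl⟩
      obtain ⟨k', hk', hkk⟩ := ((hG'mem g).1 g.2 (ι k)).1 h2
      rw [← hφ] at hkk
      rwa [← hι hkk]
    have h2 : D ≤ D.comap (φ g).toMonoidHom := by
      show ⁅KK h v, KK h v⁆ ≤ _
      rw [Subgroup.commutator_le]
      intro a ha c hc
      show φ g ⁅a, c⁆ ∈ ⁅KK h v, KK h v⁆
      rw [map_commutatorElement]
      exact Subgroup.commutator_mem_commutator (h1 a ha) (h1 c hc)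
    exact ⟨φ g x, h2 hx, Subtype.ext (hφ g x)⟩
  have hDfree : IsFreeGroup DG' := by
    have h1 : IsFreeGroup D := comm_free h v
    have hinj : Function.Injective ι' := fun x y hxy => hι (congrArg Subtype.val hxy)
    exact IsFreeGroup.ofMulEquiv (D.equivMapOfInjective ι' hinj)
  refine hC.free G' DG' hDfree ?_
  let KQ : Subgroup (G' ⧸ DG') := KG'.map (QuotientGroup.mk' DG')
  have hKQn : KQ.Normal := Subgroup.Normal.map hKn _ (QuotientGroup.mk'_surjective _)
  refine hC.abel (G' ⧸ DG') KQ ?_ ?_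
  · rintro _ ⟨a, ha, rfl⟩ _ ⟨c, hc, rfl⟩
    obtain ⟨x, hx, hxa⟩ := (show (a : G) ∈ KG from ha)
    obtain ⟨y, hy, hyc⟩ := (show (c : G) ∈ KG from hc)
    have e1 : a = ι' x := Subtype.ext hxa.symm
    have e2 : c = ι' y := Subtype.ext hyc.symm
    rw [e1, e2, ← map_mul, ← map_mul, ← map_mul, ← map_mul]
    show ((ι' (x * y) : G') : G' ⧸ DG') = (ι' (y * x) : G')
    rw [QuotientGroup.eq, ← map_inv, ← map_mul]
    refine ⟨_, ?_, rfl⟩
    have h1 : (x * y)⁻¹ * (y * x) = ⁅y⁻¹, x⁻¹⁆ := by
      rw [commutatorElement_def]; group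
    rw [h1]
    exact Subgroup.commutator_mem_commutator (inv_mem hy) (inv_mem hx)
  · exact hC.sub _ _ (QuotientGroup.quotientQuotientEquivQuotient DG' KG' hmap).toMonoidHom
      (QuotientGroup.quotientQuotientEquivQuotient DG' KG' hmap).injective hquot

end Pool.Agent.X201.RA
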