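import Mathlib
import Pool.Agent.X201.RA.Main

/-!
Extensions of groups which are virtually right-angled Artin groups.
-/

set_option autoImplicit false

namespace Pool.Agent.X201.RA

open Pool.Agent.Y110.FJ Pool.Agent.X176.FJ Pool.Agent.X201.FJ
open SimpleGraph
open scoped Pointwise

variable {C : ∀ (G : Type) [Group G], Prop}

/-- finitely many homomorphisms to a finite group -/
theorem finite_hom {N H : Type} [Group N] [Group H] [Finite H] (hN : Group.FG N) :
    Finite (N →* H) := by
  obtain ⟨S, hS⟩ := hN.out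
  refine Finite.of_injective (fun (f : N →* H) (s : S) => f s) ?_
  intro f g hfg
  apply MonoidHom.eq_of_eqOn_dense hS
  intro s hs
  exact congrFun hfg ⟨s, hs⟩

/-- finitely many subgroups of a given finite index -/
theorem finite_sub {N : Type} [Group N] (hN : Group.FG N) (d : ℕ) (hd : d ≠ 0) :
    {A : Subgroup N | A.index = d}.Finite := by
  classical
  have h0 : Finite (N →* Equiv.Perm (Fin d)) := finite_hom hN
  refine (Set.finite_range (fun p : (N →* Equiv.Perm (Fin d)) × Fin d =>
    (MulAction.stabilizer (Equiv.Perm (Fin d)) p.2).comap p.1)).subset ?_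
  intro A hA
  have hA' : Nat.card (N ⧸ A) = d := hA
  have hfin : Finite (N ⧸ A) := Nat.finite_of_card_ne_zero (by rw [hA']; exact hd)
  let e : N ⧸ A ≃ Fin d := Finite.equivFinOfCardEq hA'
  let ρ : N →* Equiv.Perm (Fin d) := (e.permCongrHom).toMonoidHom.comp (MulAction.toPermHom N (N ⧸ A))
  refine ⟨(ρ, e ((1 : N) : N ⧸ A)), ?_⟩
  ext n
  have h1 : ρ n (e ((1 : N) : N ⧸ A)) = e ((n : N) : N ⧸ A) := by
    show e (n • (e.symm (e ((1 : N) : N ⧸ A)))) = _
    rw [e.symm_apply_apply]
    show e ((n * 1 : N) : N ⧸ A) = _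
    rw [mul_one]
  show ρ n (e ((1 : N) : N ⧸ A)) = e ((1 : N) : N ⧸ A) ↔ n ∈ A
  rw [h1, e.apply_eq_iff_eq, eq_comm, QuotientGroup.eq, inv_one, one_mul]

/-- overgroups of finite index of finitely generated groups are finitely generated -/
theorem fg_over {N : Type} [Group N] (A : Subgroup N) (S : Set N) (hS : S.Finite)
    (hSA : Subgroup.closure S = A) (hfi : A.FiniteIndex) : Group.FG N := by
  have hq : Finite (N ⧸ A) := inferInstance
  rw [Group.fg_iff]
  refine ⟨S ∪ Set.range (Quotient.out : N ⧸ A → N), ?_, hS.union (Set.finite_range _)⟩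
  rw [eq_top_iff]
  intro n _
  have h1 : ((Quotient.out ((n : N) : N ⧸ A) : N) : N ⧸ A) = n := QuotientGroup.out_eq' _
  have h2 := QuotientGroup.eq.1 h1
  have h3 : n = Quotient.out ((n : N) : N ⧸ A) * ((Quotient.out ((n : N) : N ⧸ A))⁻¹ * n) := by group
  rw [h3]
  refine mul_mem (Subgroup.subset_closure (Or.inr ⟨_, rfl⟩)) ?_
  have h4 : (Quotient.out ((n : N) : N ⧸ A))⁻¹ * n ∈ Subgroup.closure S := by
    rw [hSA]; exact h2
  exact Subgroup.closure_mono Set.subset_union_left h4

/-- extensions with finite kernel -/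
theorem fin_ker (hC : KerClosed C) {H : Type} [Group H] (F : Subgroup H) [hF : F.Normal] [Finite F]
    (h : C (H ⧸ F)) : C H := by
  let ψ : H →* MulAut F := MulAut.conjNormal
  have hfin : Finite (MulAut F) := Finite.of_injective (fun (f : MulAut F) => (f : F → F))
    (fun f g hfg => MulEquiv.ext (congrFun hfg))
  let Z : Subgroup H := ψ.ker
  have hZ : Z.FiniteIndex := Subgroup.finiteIndex_ker ψ
  refine hC.fin H Z hZ ?_
  let K : Subgroup Z := F.subgroupOf Z
  have hK : K.Normal := inferInstance
  refine hC.abel Z K ?_ ?_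
  · intro a ha c hc
    apply Subtype.ext
    have h1 : (a : H) ∈ Z := a.2
    have h2 : ψ a ⟨c, hc⟩ = ⟨c, hc⟩ := by
      rw [MonoidHom.mem_ker.1 h1]; rfl
    have h3 := congrArg Subtype.val h2
    have h4 : (a : H) * c * (a : H)⁻¹ = c := h3
    show (a : H) * c = c * a
    conv_rhs => rw [← h4]
    group
  · refine hC.sub _ _ (QuotientGroup.lift K ((QuotientGroup.mk' F).comp Z.subtype) ?_) ?_ h
    · intro z hz
      exact (QuotientGroup.eq_one_iff _).2 hz
    · rw [injective_iff_map_eq_one]
      intro q hq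
      obtain ⟨z, rfl⟩ := QuotientGroup.mk_surjective q
      have h1 : ((z : H) : H ⧸ F) = 1 := hq
      have h2 : (z : H) ∈ F := (QuotientGroup.eq_one_iff _).1 h1
      exact (QuotientGroup.eq_one_iff _).2 h2

/-- the normalizer of a subgroup of finite index of a finitely generated normal subgroup has finite
index -/
theorem norm_fi {G : Type} [Group G] (A N : Subgroup G) [hN : N.Normal] (hAN : A ≤ N)
    (hfi : A.relIndex N ≠ 0) (hfg : Group.FG N) : (Subgroup.normalizer (A : Set G)).FiniteIndex := by
  classical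
  have hfin := finite_sub hfg (A.relIndex N) hfi
  have hcN : ∀ g : G, MulAut.conj g • N = N := fun g => by
    ext x
    rw [mem_cs]
    constructor
    · intro h1
      have h2 := hN.conj_mem _ h1 g
      have h3 : g * (g⁻¹ * x * g) * g⁻¹ = x := by group
      rwa [h3] at h2
    · intro h1
      have h2 := hN.conj_mem _ h1 g⁻¹
      rwa [inv_inv] at h2
  have hle : ∀ g : G, MulAut.conj g • A ≤ N := by
    intro g
    rw [← hcN g]
    exact Subgroup.pointwise_smul_le_pointwise_smul_iff.2 hAN
  have hmem : ∀ g : G, (MulAut.conj g • A).subgroupOf N ∈ {B : Subgroup N | B.index = A.relIndex N} := by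
    intro g
    show (MulAut.conj g • A).relIndex N = A.relIndex N
    conv_lhs => rw [← hcN g]
    exact Subgroup.relIndex_pointwise_smul _ _ _
  let f : G → {B : Subgroup N | B.index = A.relIndex N} := fun g => ⟨_, hmem g⟩
  have hf : ∀ g g' : G, f g = f g' → MulAut.conj g • A = MulAut.conj g' • A := by
    intro g g' hgg
    have h1 : (MulAut.conj g • A).subgroupOf N = (MulAut.conj g' • A).subgroupOf N :=
      congrArg Subtype.val hgg
    rw [Subgroup.subgroupOf_inj, inf_eq_left.2 (hle g), inf_eq_left.2 (hle g')] at h1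
    exact h1
  have hfin' : Finite {B : Subgroup N | B.index = A.relIndex N} := hfin
  have hq : Finite (G ⧸ Subgroup.normalizer (A : Set G)) := by
    refine Finite.of_injective (fun q : G ⧸ Subgroup.normalizer (A : Set G) => f q.out) ?_
    intro q q' hqq
    have h1 := hf _ _ hqq
    have h2 : (q.out)⁻¹ * q'.out ∈ Subgroup.normalizer (A : Set G) := by
      rw [mem_norm, map_mul, mul_smul, ← h1, ← mul_smul, ← map_mul, inv_mul_cancel, map_one, one_smul]
    have h3 := QuotientGroup.eq.2 h2
    rwa [QuotientGroup.out_eq', QuotientGroup.out_eq'] at h3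
  exact Subgroup.finiteIndex_of_finite_quotient

/-- **extensions of virtual right-angled Artin groups** -/
theorem ra_virt (hC : KerClosed C) {G : Type} [Group G] (A N : Subgroup G) [hN : N.Normal]
    (hAN : A ≤ N) (hfi : A.relIndex N ≠ 0) {V : Type} [Finite V] {Λ : SimpleGraph V} {b : V → A}
    (h : IsRA Λ b) (hQ : C (G ⧸ N)) : C G := by
  classical
  -- `N` is finitely generated
  have hfg : Group.FG N := by
    have h1 : (A.subgroupOf N).FiniteIndex := ⟨hfi⟩
    refine fg_over (A.subgroupOf N) (Set.range fun v => (⟨b v, hAN (b v).2⟩ : N))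
      (Set.finite_range _) ?_ h1
    apply le_antisymm
    · rw [Subgroup.closure_le]
      rintro _ ⟨v, rfl⟩
      exact (b v).2
    · intro x hx
      have h2 : (⊤ : Subgroup A) ≤ (Subgroup.closure (Set.range fun v => (⟨b v, hAN (b v).2⟩ : N))).comap
          (Subgroup.inclusion hAN) := by
        rw [← h.gp.gen]
        apply iSup_le
        intro v
        rw [Subgroup.zpowers_le]
        exact Subgroup.subset_closure ⟨v, rfl⟩
      exact h2 (Subgroup.mem_top (⟨(x : G), hx⟩ : A))
  let G1 : Subgroup G := Subgroup.normalizer (A : Set G)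
  refine hC.fin G G1 (norm_fi A N hAN hfi hfg) ?_
  have hA1 : A ≤ G1 := Subgroup.le_normalizer
  let A1 : Subgroup G1 := A.subgroupOf G1
  have hA1n : A1.Normal := Subgroup.normal_in_normalizer
  have hex : (Subgroup.inclusion hA1).range = (QuotientGroup.mk' A1).ker := by
    rw [QuotientGroup.ker_mk']
    ext x
    constructor
    · rintro ⟨y, rfl⟩
      exact y.2
    · intro hx
      exact ⟨⟨(x : G), hx⟩, rfl⟩
  refine ra_main hC _ G1 (G1 ⧸ A1) A V Λ b h (Subgroup.inclusion hA1)
    (Subgroup.inclusion_injective hA1) (QuotientGroup.mk' A1) hex rfl ?_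
  -- the finite kernel
  let N1 : Subgroup G1 := N.subgroupOf G1
  have hN1 : N1.Normal := inferInstance
  have hle : A1 ≤ N1 := fun x hx => hAN hx
  let F : Subgroup (G1 ⧸ A1) := N1.map (QuotientGroup.mk' A1)
  have hFn : F.Normal := Subgroup.Normal.map hN1 _ (QuotientGroup.mk'_surjective _)
  have hfin : Finite F := by
    have h1 : Finite (N ⧸ A.subgroupOf N) := by
      have h2 : (A.subgroupOf N).FiniteIndex := ⟨hfi⟩
      infer_instance
    have h2 : ∀ y : F, ∃ n : N1, ((n : G1) : G1 ⧸ A1) = y := by
      rintro ⟨_, n, hn, rfl⟩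
      exact ⟨⟨n, hn⟩, rfl⟩
    choose r hr using h2
    refine Finite.of_injective (fun y : F => (((⟨((r y : G1) : G), (r y).2⟩ : N)) :
      N ⧸ A.subgroupOf N)) ?_
    intro y z hyz
    have h3 := QuotientGroup.eq.1 hyz
    apply Subtype.ext
    rw [← hr y, ← hr z, QuotientGroup.eq]
    exact h3
  refine fin_ker hC F ?_
  refine hC.sub _ _ (QuotientGroup.quotientQuotientEquivQuotient A1 N1 hle).toMonoidHom
    (QuotientGroup.quotientQuotientEquivQuotient A1 N1 hle).injective ?_
  refine hC.sub _ _ (QuotientGroup.lift N1 ((QuotientGroup.mk' N).comp G1.subtype) ?_) ?_ hQ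
  · intro z hz
    exact (QuotientGroup.eq_one_iff _).2 hz
  · rw [injective_iff_map_eq_one]
    intro q hq
    obtain ⟨z, rfl⟩ := QuotientGroup.mk_surjective q
    have h1 : ((z : G) : G ⧸ N) = 1 := hq
    have h2 : (z : G) ∈ N := (QuotientGroup.eq_one_iff _).1 h1
    exact (QuotientGroup.eq_one_iff _).2 h2

end Pool.Agent.X201.RA
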