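import Mathlib
import Pool.Agent.X201.RA.Virt

/-!
Right-angled Artin groups by generators and relations.
-/

set_option autoImplicit false

namespace Pool.Agent.X201.RA

open Pool.Agent.Y110.FJ Pool.Agent.X176.FJ Pool.Agent.X201.FJ
open SimpleGraph

/-- groups with the universal property -/
theorem mk_ra {M V : Type} [Group M] {Λ : SimpleGraph V} {b : V → M}
    (hcomm : ∀ u v, Λ.Adj u v → Commute (b u) (b v))
    (hgen : Subgroup.closure (Set.range b) = ⊤)
    (huniv : ∀ (H : Type) [Group H] (f : V → H), (∀ u v, Λ.Adj u v → Commute (f u) (f v)) →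
      ∃ F : M →* H, ∀ v, F (b v) = f v) : IsRA Λ b where
  gp :=
    { comm := by
        intro u v huv x hx y hy
        obtain ⟨m, rfl⟩ := Subgroup.mem_zpowers_iff.1 hx
        obtain ⟨n, rfl⟩ := Subgroup.mem_zpowers_iff.1 hy
        exact ((hcomm u v huv).zpow_zpow m n).eq
      gen := by
        rw [eq_top_iff, ← hgen, Subgroup.closure_le]
        rintro _ ⟨v, rfl⟩
        exact Subgroup.mem_iSup_of_mem v (Subgroup.mem_zpowers _)
      univ := by
        intro H _ f hf
        obtain ⟨F, hF⟩ := huniv H (fun v => f v ⟨b v, Subgroup.mem_zpowers _⟩) fun u v huv => hf u v huv _ _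
        refine ⟨F, fun v x => ?_⟩
        obtain ⟨x, hx⟩ := x
        obtain ⟨n, rfl⟩ := Subgroup.mem_zpowers_iff.1 hx
        show F (b v ^ n) = _
        rw [map_zpow, hF, ← map_zpow]
        rfl }
  inf := by
    intro v n hn
    obtain ⟨F, hF⟩ := huniv (Multiplicative ℤ) (fun _ => Multiplicative.ofAdd 1) fun _ _ _ => Commute.all _ _
    have h1 := congrArg F hn
    rw [map_zpow, hF, MonoidHom.map_one] at h1
    have h2 : n * 1 = 0 := by
      have h3 := congrArg Multiplicative.toAdd h1
      rw [toAdd_zpow, toAdd_ofAdd, toAdd_one, smul_eq_mul] at h3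
      exact h3
    rwa [mul_one] at h2

/-- The right-angled Artin group of the graph `Λ`: one generator for each vertex, and the generators of
adjacent vertices commute. -/
abbrev RAAG {V : Type} (Λ : SimpleGraph V) : Type :=
  PresentedGroup {r : FreeGroup V | ∃ u v : V, Λ.Adj u v ∧
    r = FreeGroup.of u * FreeGroup.of v * (FreeGroup.of u)⁻¹ * (FreeGroup.of v)⁻¹}

theorem raag_comm {V : Type} (Λ : SimpleGraph V) {u v : V} (huv : Λ.Adj u v) :
    Commute (PresentedGroup.of u : RAAG Λ) (PresentedGroup.of v) := by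
  have h1 : (PresentedGroup.mk {r : FreeGroup V | ∃ u v : V, Λ.Adj u v ∧
      r = FreeGroup.of u * FreeGroup.of v * (FreeGroup.of u)⁻¹ * (FreeGroup.of v)⁻¹}
      (FreeGroup.of u * FreeGroup.of v * (FreeGroup.of u)⁻¹ * (FreeGroup.of v)⁻¹)) = 1 :=
    PresentedGroup.one_of_mem ⟨u, v, huv, rfl⟩
  simp only [map_mul, map_inv] at h1
  exact mul_inv_eq_iff_eq_mul.1 (mul_inv_eq_one.1 h1)

/-- right-angled Artin groups -/
theorem iso_ra {A V : Type} [Group A] (Λ : SimpleGraph V) (e : A ≃* RAAG Λ) :
    IsRA Λ (fun v => e.symm (PresentedGroup.of v)) := by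
  refine mk_ra ?_ ?_ ?_
  · intro u v huv
    exact (raag_comm Λ huv).map e.symm
  · have h1 : Set.range (fun v => e.symm (PresentedGroup.of v : RAAG Λ)) =
        e.symm.toMonoidHom '' Set.range (PresentedGroup.of : V → RAAG Λ) := by
      rw [← Set.range_comp]; rfl
    rw [h1, ← MonoidHom.map_closure, PresentedGroup.closure_range_of, ← MonoidHom.range_eq_map,
      MonoidHom.range_eq_top]
    exact e.symm.surjective
  · intro H _ f hf
    have hr : ∀ r ∈ {r : FreeGroup V | ∃ u v : V, Λ.Adj u v ∧
        r = FreeGroup.of u * FreeGroup.of v * (FreeGroup.of u)⁻¹ * (FreeGroup.of v)⁻¹},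
        FreeGroup.lift f r = 1 := by
      rintro r ⟨u, v, huv, rfl⟩
      simp only [map_mul, map_inv, FreeGroup.lift_apply_of]
      rw [(hf u v huv).eq]
      group
    refine ⟨(PresentedGroup.toGroup hr).comp e.toMonoidHom, fun v => ?_⟩
    show PresentedGroup.toGroup hr (e (e.symm (PresentedGroup.of v))) = f v
    rw [e.apply_symm_apply]
    exact PresentedGroup.toGroup.of hr

end Pool.Agent.X201.RA
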